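import Pool.Agent.Run7.h316.EQ.Tests
import Pool.Agent.Run7.h316.EQ.Typ

/-!
# Unit null sets: sets which contain few classes of vectors of units

A set of integral vectors is unit null if for all `D` and `ε > 0` there is a `q` prime to `D` such that at
most the proportion `ε` of the vectors of units modulo `q` are classes of elements of the set. The families of
vectors which are spread over the vectors of units (vectors of primes, ...) almost avoid these sets.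
-/

set_option autoImplicit false

namespace Pool.Agent.Run7.h316.UN

open Filter Topology
open Pool.Agent.Run7.h316.EQ

section

variable {ι : Type} [Fintype ι]

/-- the vectors of units modulo `q` -/
def V (ι : Type) (q : ℕ) : Set (ι → ZMod q) := {x | ∀ i, IsUnit (x i)}

/-- the classes of vectors of units modulo `q` which contain elements of `B` -/
def imU (q : ℕ) (B : Set (ι → ℤ)) : Set (ι → ZMod q) := im q B ∩ V ι q

/-- for all `D` there is a `q` prime to `D` such that the proportion of the vectors of units modulo `q` which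
are classes of elements of `B` is at most `δ` -/
def USmall (δ : ℝ) (B : Set (ι → ℤ)) : Prop :=
  ∀ D : ℕ, 0 < D → ∃ q : ℕ, 0 < q ∧ q.Coprime D ∧
    (((imU q B).ncard : ℕ) : ℝ) ≤ δ * (q.totient : ℝ) ^ Fintype.card ι

/-- `B` is unit null: for all `D` and `ε > 0` there is a `q` prime to `D` such that at most the proportion `ε`
of the vectors of units modulo `q` are classes of elements of `B`. -/
def UnitNull (B : Set (ι → ℤ)) : Prop :=
  ∀ ε : ℝ, 0 < ε → ∀ D : ℕ, 0 < D → ∃ q : ℕ, 0 < q ∧ q.Coprime D ∧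
    (((imU q B).ncard : ℕ) : ℝ) ≤ ε * (q.totient : ℝ) ^ Fintype.card ι

theorem V_card (q : ℕ) (hq : 0 < q) : (V ι q).ncard = q.totient ^ Fintype.card ι := by
  classical
  have : NeZero q := ⟨hq.ne'⟩
  have h1 : (V ι q) = Set.range (fun (u : ι → (ZMod q)ˣ) (i : ι) => ((u i : (ZMod q)ˣ) : ZMod q)) := by
    ext x
    constructor
    · intro hx
      choose u hu using hx
      exact ⟨u, funext hu⟩
    · rintro ⟨u, rfl⟩ i
      exact (u i).isUnit
  rw [h1, ← Set.image_univ, Set.ncard_image_of_injective, Set.ncard_univ, Nat.card_eq_fintype_card,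
    Fintype.card_fun, ZMod.card_units_eq_totient]
  intro u v huv
  funext i
  exact Units.ext (congrFun huv i)

theorem imU_mono (q : ℕ) {A B : Set (ι → ℤ)} (h : A ⊆ B) : imU q A ⊆ imU q B :=
  Set.inter_subset_inter_left _ (Set.image_mono h)

theorem imU_ncard_mono {q : ℕ} (hq : 0 < q) {A B : Set (ι → ℤ)} (h : A ⊆ B) :
    (imU q A).ncard ≤ (imU q B).ncard := by
  have : NeZero q := ⟨hq.ne'⟩
  exact Set.ncard_le_ncard (imU_mono q h) (Set.toFinite _)

theorem imU_le {q : ℕ} (hq : 0 < q) (B : Set (ι → ℤ)) :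
    (imU q B).ncard ≤ q.totient ^ Fintype.card ι := by
  have : NeZero q := ⟨hq.ne'⟩
  rw [← V_card (ι := ι) q hq]
  exact Set.ncard_le_ncard Set.inter_subset_right (Set.toFinite _)

/-- the image modulo a product of coprime numbers -/
theorem imU_mul_le {q q' : ℕ} (hq : 0 < q) (hq' : 0 < q') (hc : q.Coprime q') (B : Set (ι → ℤ)) :
    (imU (q * q') B).ncard ≤ (imU q B).ncard * (imU q' B).ncard := by
  have : NeZero q := ⟨hq.ne'⟩
  have : NeZero q' := ⟨hq'.ne'⟩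
  have : NeZero (q * q') := ⟨(Nat.mul_pos hq hq').ne'⟩
  rw [← Set.ncard_prod]
  refine Set.ncard_le_ncard_of_injOn (fun x => (fun i => ZMod.castHom (dvd_mul_right q q') (ZMod q)
    (x i), fun i => ZMod.castHom (dvd_mul_left q' q) (ZMod q') (x i))) ?_ ?_ (Set.toFinite _)
  · rintro _ ⟨⟨c, hcB, rfl⟩, hu⟩
    refine ⟨⟨⟨c, hcB, ?_⟩, fun i => ?_⟩, ⟨⟨c, hcB, ?_⟩, fun i => ?_⟩⟩
    · funext i
      simp
    · exact (hu i).map (ZMod.castHom (dvd_mul_right q q') (ZMod q))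
    · funext i
      simp
    · exact (hu i).map (ZMod.castHom (dvd_mul_left q' q) (ZMod q'))
  · rintro _ ⟨⟨c, -, rfl⟩, -⟩ _ ⟨⟨c', -, rfl⟩, -⟩ h
    rw [Prod.mk.injEq] at h
    funext i
    have h1 := congrFun h.1 i
    have h2 := congrFun h.2 i
    simp only [map_intCast] at h1 h2
    rw [ZMod.intCast_eq_intCast_iff_dvd_sub] at h1 h2 ⊢
    push_cast
    exact (Nat.isCoprime_iff_coprime.2 hc).mul_dvd h1 h2

theorem UnitNull.small {B : Set (ι → ℤ)} (h : UnitNull B) {δ : ℝ} (hδ : 0 < δ) : USmall δ B := h δ hδ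

theorem unitNull_of_small {B : Set (ι → ℤ)} (h : ∀ δ : ℝ, 0 < δ → USmall δ B) : UnitNull B := h

theorem USmall.mono {δ : ℝ} {A B : Set (ι → ℤ)} (hAB : A ⊆ B) (h : USmall δ B) : USmall δ A := by
  intro D hD
  obtain ⟨q, hq, hqD, h1⟩ := h D hD
  refine ⟨q, hq, hqD, le_trans ?_ h1⟩
  exact Nat.cast_le.2 (imU_ncard_mono hq hAB)

theorem UnitNull.mono {A B : Set (ι → ℤ)} (hAB : A ⊆ B) (h : UnitNull B) : UnitNull A :=
  fun ε hε => USmall.mono hAB (h ε hε)

theorem USmall.le {δ δ' : ℝ} {B : Set (ι → ℤ)} (hδ : δ ≤ δ') (h : USmall δ B) : USmall δ' B := by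
  intro D hD
  obtain ⟨q, hq, hqD, h1⟩ := h D hD
  exact ⟨q, hq, hqD, h1.trans (mul_le_mul_of_nonneg_right hδ (by positivity))⟩

theorem USmall.union {δ δ' : ℝ} {B B' : Set (ι → ℤ)} (hB : USmall δ B) (hB' : USmall δ' B') :
    USmall (δ + δ') (B ∪ B') := by
  intro D hD
  obtain ⟨q, hq, hqD, h2⟩ := hB D hD
  obtain ⟨q', hq', hqD', h2'⟩ := hB' (D * q) (Nat.mul_pos hD hq)
  have hc : q.Coprime q' := (Nat.Coprime.coprime_dvd_right (dvd_mul_left q D) hqD').symm
  have : NeZero (q * q') := ⟨(Nat.mul_pos hq hq').ne'⟩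
  refine ⟨q * q', Nat.mul_pos hq hq', Nat.Coprime.mul_left hqD
    (Nat.Coprime.coprime_dvd_right (dvd_mul_right D q) hqD'), ?_⟩
  have e1 : imU (q * q') (B ∪ B') = imU (q * q') B ∪ imU (q * q') B' := by
    unfold imU im
    rw [Set.image_union, Set.union_inter_distrib_right]
  have h3 : (imU (q * q') (B ∪ B')).ncard ≤ (imU q B).ncard * q'.totient ^ Fintype.card ι +
      q.totient ^ Fintype.card ι * (imU q' B').ncard := by
    rw [e1]
    refine (Set.ncard_union_le _ _).trans (Nat.add_le_add ?_ ?_)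
    · exact (imU_mul_le hq hq' hc B).trans (Nat.mul_le_mul_left _ (imU_le hq' B))
    · exact (imU_mul_le hq hq' hc B').trans (Nat.mul_le_mul_right _ (imU_le hq B'))
  have h4 : (((imU (q * q') (B ∪ B')).ncard : ℕ) : ℝ) ≤
      ((imU q B).ncard : ℝ) * (q'.totient : ℝ) ^ Fintype.card ι +
        (q.totient : ℝ) ^ Fintype.card ι * ((imU q' B').ncard : ℝ) := by exact_mod_cast h3
  refine h4.trans ?_
  rw [Nat.totient_mul hc, Nat.cast_mul, mul_pow]
  have h5 := mul_le_mul_of_nonneg_right h2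
    (by positivity : (0 : ℝ) ≤ (q'.totient : ℝ) ^ Fintype.card ι)
  have h6 := mul_le_mul_of_nonneg_left h2'
    (by positivity : (0 : ℝ) ≤ (q.totient : ℝ) ^ Fintype.card ι)
  nlinarith

theorem UnitNull.union {B B' : Set (ι → ℤ)} (hB : UnitNull B) (hB' : UnitNull B') :
    UnitNull (B ∪ B') := by
  intro ε hε
  have h := USmall.union (hB (ε / 2) (by positivity)) (hB' (ε / 2) (by positivity))
  rw [add_halves] at h
  exact h

theorem unitNull_empty : UnitNull (∅ : Set (ι → ℤ)) := by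
  intro ε hε D hD
  refine ⟨1, one_pos, Nat.coprime_one_left D, ?_⟩
  simp only [imU, im, Set.image_empty, Set.empty_inter, Set.ncard_empty, Nat.cast_zero]
  positivity

theorem UnitNull.biUnion {J : Type} (F : Finset J) {B : J → Set (ι → ℤ)}
    (h : ∀ j ∈ F, UnitNull (B j)) : UnitNull (⋃ j ∈ F, B j) := by
  classical
  induction F using Finset.induction_on with
  | empty => simpa using unitNull_empty
  | insert a s ha ih =>
    rw [Finset.set_biUnion_insert]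
    exact (h a (Finset.mem_insert_self _ _)).union
      (ih fun j hj => h j (Finset.mem_insert_of_mem hj))

theorem UnitNull.iUnion {J : Type} [Finite J] {B : J → Set (ι → ℤ)} (h : ∀ j, UnitNull (B j)) :
    UnitNull (⋃ j, B j) := by
  have := Fintype.ofFinite J
  simpa using UnitNull.biUnion Finset.univ (fun j _ => h j)

/-- very null sets are unit null -/
theorem unitNull_of_very {B : Set (ι → ℤ)} (h : VeryNull B) : UnitNull B := by
  intro ε hε D hD
  obtain ⟨q, hq, hqD, h1, h2⟩ := h D hD 2 (ε / 2 ^ Fintype.card ι) (by norm_num) (by positivity)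
  have hq0 : 0 < q := Nat.pos_of_ne_zero hq.ne_zero
  have : NeZero q := ⟨hq0.ne'⟩
  refine ⟨q, hq0, hqD, ?_⟩
  have hφ : (0 : ℝ) < q.totient := by exact_mod_cast Nat.totient_pos.2 hq0
  have h3 : (((imU q B).ncard : ℕ) : ℝ) ≤ (((im q B).ncard : ℕ) : ℝ) :=
    Nat.cast_le.2 (Set.ncard_le_ncard Set.inter_subset_left (Set.toFinite _))
  rw [div_le_iff₀ hφ] at h1
  calc (((imU q B).ncard : ℕ) : ℝ) ≤ ε / 2 ^ Fintype.card ι * (q : ℝ) ^ Fintype.card ι :=
        h3.trans h2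
    _ ≤ ε / 2 ^ Fintype.card ι * (2 * (q.totient : ℝ)) ^ Fintype.card ι := by gcongr
    _ = ε * (q.totient : ℝ) ^ Fintype.card ι := by
        rw [mul_pow]
        field_simp

/-- strongly null sets are unit null -/
theorem unitNull_of_strong {B : Set (ι → ℤ)} (h : StrongNull B) : UnitNull B := by
  intro ε hε D hD
  obtain ⟨q, hq, hqD, h1⟩ := h D hD (Fintype.card ι) ε hε
  have hq0 : 0 < q := Nat.pos_of_ne_zero hq.ne_zero
  have : NeZero q := ⟨hq0.ne'⟩
  refine ⟨q, hq0, hqD, ?_⟩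
  have hφ : (0 : ℝ) < q.totient := by exact_mod_cast Nat.totient_pos.2 hq0
  have hqr : (0 : ℝ) < q := by exact_mod_cast hq0
  have h3 : (((imU q B).ncard : ℕ) : ℝ) ≤ (((im q B).ncard : ℕ) : ℝ) :=
    Nat.cast_le.2 (Set.ncard_le_ncard Set.inter_subset_left (Set.toFinite _))
  have h4 : (((im q B).ncard : ℕ) : ℝ) * ((q : ℝ) / q.totient) ^ Fintype.card ι ≤
      ε * (q : ℝ) ^ Fintype.card ι := h1
  rw [div_pow, mul_div_assoc', div_le_iff₀ (by positivity)] at h4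
  have h5 : (((im q B).ncard : ℕ) : ℝ) * (q : ℝ) ^ Fintype.card ι ≤
      (ε * (q.totient : ℝ) ^ Fintype.card ι) * (q : ℝ) ^ Fintype.card ι := by linarith
  exact h3.trans (le_of_mul_le_mul_right h5 (by positivity))

/-- **the criterion**: local conditions modulo the powers `p ^ k` of the primes, with a divergent sum of the
proportions among the vectors of units -/
theorem unitNull_of_tests {B : Set (ι → ℤ)} (k : ℕ) (w : ℕ → ℝ) (hw : ∀ p, 0 ≤ w p)
    (hns : ¬ Summable (fun p : ℕ => if p.Prime then w p else 0)) (D₀ : ℕ)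
    (h : ∀ p : ℕ, p.Prime → D₀ < p → ∃ A : Set (ι → ZMod (p ^ k)), A ⊆ V ι (p ^ k) ∧
      w p * ((p ^ k).totient : ℝ) ^ Fintype.card ι ≤ A.ncard ∧
      ∀ c ∈ B, (fun i => (c i : ZMod (p ^ k))) ∉ A) : UnitNull B := by
  classical
  intro ε hε D hD
  -- one prime
  have hone : ∀ p : ℕ, p.Prime → D₀ < p → (((imU (p ^ k) B).ncard : ℕ) : ℝ) ≤
      Real.exp (-w p) * ((p ^ k).totient : ℝ) ^ Fintype.card ι := by
    intro p hp hpD
    have hpk : 0 < p ^ k := Nat.pow_pos hp.pos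
    have : NeZero (p ^ k) := ⟨hpk.ne'⟩
    obtain ⟨A, hA1, hA2, hA3⟩ := h p hp hpD
    have h1 : imU (p ^ k) B ⊆ V ι (p ^ k) \ A := by
      rintro _ ⟨⟨c, hc, rfl⟩, hu⟩
      exact ⟨hu, hA3 c hc⟩
    have h2 : (imU (p ^ k) B).ncard + A.ncard ≤ (V ι (p ^ k)).ncard := by
      have h3 := Set.ncard_le_ncard h1 (Set.toFinite _)
      have h4 := Set.ncard_sdiff_add_ncard_of_subset hA1 (Set.toFinite _)
      omega
    rw [V_card _ hpk] at h2
    have h3 : (((imU (p ^ k) B).ncard : ℕ) : ℝ) + (A.ncard : ℝ) ≤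
        ((p ^ k).totient : ℝ) ^ Fintype.card ι := by exact_mod_cast h2
    have h4 : 1 - w p ≤ Real.exp (-w p) := by
      have := Real.add_one_le_exp (-w p)
      linarith
    have h5 : (0 : ℝ) ≤ ((p ^ k).totient : ℝ) ^ Fintype.card ι := by positivity
    have h6 := mul_le_mul_of_nonneg_right h4 h5
    linarith
  -- finitely many primes
  have hfin : ∀ T : Finset ℕ, (∀ p ∈ T, p.Prime ∧ D₀ < p ∧ D < p) →
      0 < ∏ p ∈ T, p ^ k ∧ (∏ p ∈ T, p ^ k).Coprime D ∧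
      (((imU (∏ p ∈ T, p ^ k) B).ncard : ℕ) : ℝ) ≤
        Real.exp (-∑ p ∈ T, w p) * ((∏ p ∈ T, p ^ k).totient : ℝ) ^ Fintype.card ι := by
    intro T
    induction T using Finset.induction_on with
    | empty =>
      intro _
      rw [Finset.prod_empty, Finset.sum_empty]
      refine ⟨one_pos, Nat.coprime_one_left D, ?_⟩
      have h1 := imU_le (ι := ι) one_pos B
      rw [neg_zero, Real.exp_zero, one_mul]
      exact_mod_cast h1
    | insert p T hpT ih =>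
      intro hT
      obtain ⟨h1, h2, h3⟩ := ih fun p' hp' => hT p' (Finset.mem_insert_of_mem hp')
      obtain ⟨hp, hpD₀, hpD⟩ := hT p (Finset.mem_insert_self _ _)
      have hpk : 0 < p ^ k := Nat.pow_pos hp.pos
      have hc : (p ^ k).Coprime (∏ p ∈ T, p ^ k) := by
        refine Nat.Coprime.prod_right fun p' hp' => ?_
        refine Nat.Coprime.pow k k ((Nat.coprime_primes hp
          (hT p' (Finset.mem_insert_of_mem hp')).1).2 ?_)
        rintro rfl
        exact hpT hp'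
      rw [Finset.prod_insert hpT, Finset.sum_insert hpT]
      refine ⟨Nat.mul_pos hpk h1, Nat.Coprime.mul_left (Nat.Coprime.pow_left _ ?_) h2, ?_⟩
      · rw [hp.coprime_iff_not_dvd]
        intro hd
        have := Nat.le_of_dvd hD hd
        omega
      · have h4 : (((imU (p ^ k * ∏ p ∈ T, p ^ k) B).ncard : ℕ) : ℝ) ≤
            ((imU (p ^ k) B).ncard : ℝ) * ((imU (∏ p ∈ T, p ^ k) B).ncard : ℝ) := by
          exact_mod_cast imU_mul_le hpk h1 hc B
        refine h4.trans ?_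
        rw [Nat.totient_mul hc, Nat.cast_mul, mul_pow, neg_add, Real.exp_add]
        calc ((imU (p ^ k) B).ncard : ℝ) * ((imU (∏ p ∈ T, p ^ k) B).ncard : ℝ)
            ≤ (Real.exp (-w p) * ((p ^ k).totient : ℝ) ^ Fintype.card ι) *
              (Real.exp (-∑ p ∈ T, w p) *
                ((∏ p ∈ T, p ^ k).totient : ℝ) ^ Fintype.card ι) :=
              mul_le_mul (hone p hp hpD₀) h3 (by positivity) (by positivity)
          _ = _ := by ring
  -- large sums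
  set f : ℕ → ℝ := fun p => if p.Prime then w p else 0 with hf
  have hf0 : ∀ p, 0 ≤ f p := by
    intro p
    simp only [hf]
    split_ifs
    · exact hw p
    · exact le_rfl
  have hlim := (not_summable_iff_tendsto_nat_atTop_of_nonneg hf0).1 hns
  set N₁ : ℕ := max D₀ D + 1 with hN₁
  obtain ⟨n, hn1, hn2⟩ := ((hlim.eventually_ge_atTop
    (∑ p ∈ Finset.range N₁, f p + -Real.log ε)).and (eventually_ge_atTop N₁)).exists
  set T : Finset ℕ := (Finset.Ico N₁ n).filter Nat.Prime with hT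
  have hTs : ∑ p ∈ T, w p = ∑ p ∈ Finset.Ico N₁ n, f p := by
    rw [hT, Finset.sum_filter]
  have hsum : -Real.log ε ≤ ∑ p ∈ T, w p := by
    rw [hTs]
    have h1 := Finset.sum_range_add_sum_Ico f hn2
    linarith
  obtain ⟨h1, h2, h3⟩ := hfin T (fun p hp => by
    rw [hT, Finset.mem_filter, Finset.mem_Ico] at hp
    have e1 : D₀ ≤ max D₀ D := le_max_left _ _
    have e2 : D ≤ max D₀ D := le_max_right _ _
    exact ⟨hp.2, by omega, by omega⟩)
  refine ⟨_, h1, h2, h3.trans (mul_le_mul_of_nonneg_right ?_ (by positivity))⟩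
  rw [← Real.log_le_log_iff (Real.exp_pos _) hε, Real.log_exp]
  linarith

/-! ### Families -/

/-- The family of integral vectors `c w`, `w` in `Ω`, is spread over the vectors of units along the finite
sets `S N`: there are `C` and `M` such that for all `q` prime to `M` the proportion of the `w` in `S N` for
which `c w` is in a given class modulo `q` is at most `C φ(q) ^ (-r) + o(1)`, and the proportion of those for
which some coordinate of `c w` is not prime to `q` is `o(1)`, `N → ∞`. -/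
def UnitSpread {Ω : Type} (S : ℕ → Finset Ω) (c : Ω → ι → ℤ) : Prop :=
  ∃ (C : ℝ) (M : ℕ), 0 < M ∧ ∀ q : ℕ, 0 < q → q.Coprime M →
    (∀ (a : ι → ZMod q) (ε : ℝ), 0 < ε → ∃ N₀ : ℕ, ∀ N : ℕ, N₀ ≤ N →
      (({w : Ω | w ∈ S N ∧ ∀ i, ((c w i : ℤ) : ZMod q) = a i}.ncard : ℕ) : ℝ) ≤
        (C * ((q.totient : ℝ) ^ Fintype.card ι)⁻¹ + ε) * (S N).card) ∧
    ∀ ε : ℝ, 0 < ε → ∃ N₀ : ℕ, ∀ N : ℕ, N₀ ≤ N →
      (({w : Ω | w ∈ S N ∧ ∃ i, ¬ IsUnit ((c w i : ℤ) : ZMod q)}.ncard : ℕ) : ℝ) ≤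
        ε * (S N).card

/-- The family of integral vectors `c w`, `w` in `Ω`, is spread along the finite sets `S N`: there are `C` and
`M` such that for all `q` prime to `M` the proportion of the `w` in `S N` for which `c w` is in a given class
modulo `q` is at most `C q ^ (-r) + o(1)`, `N → ∞`. -/
def Spread {Ω : Type} (S : ℕ → Finset Ω) (c : Ω → ι → ℤ) : Prop :=
  ∃ (C : ℝ) (M : ℕ), 0 < M ∧ ∀ q : ℕ, 0 < q → q.Coprime M →
    ∀ (a : ι → ZMod q) (ε : ℝ), 0 < ε → ∃ N₀ : ℕ, ∀ N : ℕ, N₀ ≤ N →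
      (({w : Ω | w ∈ S N ∧ ∀ i, ((c w i : ℤ) : ZMod q) = a i}.ncard : ℕ) : ℝ) ≤
        (C * ((q : ℝ) ^ Fintype.card ι)⁻¹ + ε) * (S N).card

theorem classes_bound {Ω : Type} {S : ℕ → Finset Ω} {c : Ω → ι → ℤ} {q : ℕ} (hq : 0 < q) {κ : ℝ}
    (hc : ∀ (a : ι → ZMod q) (ε : ℝ), 0 < ε → ∃ N₀ : ℕ, ∀ N : ℕ, N₀ ≤ N →
      (({w : Ω | w ∈ S N ∧ ∀ i, ((c w i : ℤ) : ZMod q) = a i}.ncard : ℕ) : ℝ) ≤
        (κ + ε) * (S N).card) (I : Set (ι → ZMod q)) (δ : ℝ) (hδ : 0 < δ) :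
    ∃ N₀ : ℕ, ∀ N : ℕ, N₀ ≤ N →
      (({w : Ω | w ∈ S N ∧ (fun i => ((c w i : ℤ) : ZMod q)) ∈ I}.ncard : ℕ) : ℝ) ≤
        (I.ncard * κ + δ) * (S N).card := by
  classical
  have : NeZero q := ⟨hq.ne'⟩
  have hIf : I.Finite := Set.toFinite _
  have hδ' : (0 : ℝ) < δ / (I.ncard + 1) := by positivity
  choose N₀ hN₀ using fun a : ι → ZMod q => hc a (δ / (I.ncard + 1)) hδ'
  refine ⟨Finset.univ.sup N₀, fun N hN => ?_⟩
  have hsub : {w : Ω | w ∈ S N ∧ (fun i => ((c w i : ℤ) : ZMod q)) ∈ I} ⊆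
      ⋃ a ∈ hIf.toFinset, {w : Ω | w ∈ S N ∧ ∀ i, ((c w i : ℤ) : ZMod q) = a i} := by
    rintro n ⟨hn1, hn2⟩
    rw [Set.mem_iUnion₂]
    exact ⟨fun i => ((c n i : ℤ) : ZMod q), (Set.Finite.mem_toFinset _).2 hn2, hn1, fun i => rfl⟩
  have hfin : (⋃ a ∈ hIf.toFinset,
      {w : Ω | w ∈ S N ∧ ∀ i, ((c w i : ℤ) : ZMod q) = a i}).Finite := by
    refine (S N).finite_toSet.subset ?_
    intro n hn
    rw [Set.mem_iUnion₂] at hn
    obtain ⟨a, _, hn⟩ := hn
    exact hn.1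
  have h3 := (Set.ncard_le_ncard hsub hfin).trans
    (Finset.set_ncard_biUnion_le hIf.toFinset
      (fun a => {w : Ω | w ∈ S N ∧ ∀ i, ((c w i : ℤ) : ZMod q) = a i}))
  have h4 : (({w : Ω | w ∈ S N ∧ (fun i => ((c w i : ℤ) : ZMod q)) ∈ I}.ncard : ℕ) : ℝ) ≤
      ∑ a ∈ hIf.toFinset, (κ + δ / (I.ncard + 1)) * (S N).card := by
    have h3' : (({w : Ω | w ∈ S N ∧ (fun i => ((c w i : ℤ) : ZMod q)) ∈ I}.ncard : ℕ) : ℝ) ≤
        ∑ a ∈ hIf.toFinset,
        (({w : Ω | w ∈ S N ∧ ∀ i, ((c w i : ℤ) : ZMod q) = a i}.ncard : ℕ) : ℝ) := by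
      exact_mod_cast h3
    refine le_trans h3' (Finset.sum_le_sum fun a _ => ?_)
    exact hN₀ a N ((Finset.le_sup (Finset.mem_univ a)).trans hN)
  refine h4.trans ?_
  rw [Finset.sum_const, nsmul_eq_mul, ← Set.ncard_eq_toFinset_card I hIf, ← mul_assoc]
  refine mul_le_mul_of_nonneg_right ?_ (Nat.cast_nonneg _)
  have h6 : (I.ncard : ℝ) * (δ / (I.ncard + 1)) ≤ δ := by
    rw [mul_div_assoc', div_le_iff₀ (by positivity)]
    nlinarith [hδ, (Nat.cast_nonneg I.ncard : (0 : ℝ) ≤ I.ncard)]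
  rw [mul_add]
  linarith

theorem rare_of_unit {Ω : Type} {S : ℕ → Finset Ω} {c : Ω → ι → ℤ} {B : Set (ι → ℤ)}
    (hc : UnitSpread S c) (hB : UnitNull B) : Rare S c B := by
  classical
  intro ε hε
  obtain ⟨C, M, hM, hc⟩ := hc
  set C' : ℝ := max C 1 with hC'
  have hC1 : (1 : ℝ) ≤ C' := le_max_right _ _
  have hCC : C ≤ C' := le_max_left _ _
  obtain ⟨q, hq, hqM, hb⟩ := hB (ε / (4 * C')) (by positivity) M hM
  have : NeZero q := ⟨hq.ne'⟩
  have hφ : (0 : ℝ) < q.totient := by exact_mod_cast Nat.totient_pos.2 hq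
  obtain ⟨hc1, hc2⟩ := hc q hq hqM
  obtain ⟨N₁, hN₁⟩ := classes_bound hq hc1 (imU q B) (ε / 4) (by positivity)
  obtain ⟨N₂, hN₂⟩ := hc2 (ε / 4) (by positivity)
  refine ⟨max N₁ N₂, fun N hN => ?_⟩
  have h1 := hN₁ N ((le_max_left _ _).trans hN)
  have h2 := hN₂ N ((le_max_right _ _).trans hN)
  have hsub : {w : Ω | w ∈ S N ∧ c w ∈ B} ⊆
      {w : Ω | w ∈ S N ∧ (fun i => ((c w i : ℤ) : ZMod q)) ∈ imU q B} ∪
        {w : Ω | w ∈ S N ∧ ∃ i, ¬ IsUnit ((c w i : ℤ) : ZMod q)} := by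
    rintro w ⟨hw1, hw2⟩
    by_cases h : ∃ i, ¬ IsUnit ((c w i : ℤ) : ZMod q)
    · exact Or.inr ⟨hw1, h⟩
    · push Not at h
      exact Or.inl ⟨hw1, ⟨c w, hw2, rfl⟩, h⟩
  have hf : ∀ P : Ω → Prop, {w : Ω | w ∈ S N ∧ P w}.Finite := fun P =>
    (S N).finite_toSet.subset fun w hw => hw.1
  have h3 := (Set.ncard_le_ncard hsub ((hf _).union (hf _))).trans (Set.ncard_union_le _ _)
  have h4 : (({w : Ω | w ∈ S N ∧ c w ∈ B}.ncard : ℕ) : ℝ) ≤
      (({w : Ω | w ∈ S N ∧ (fun i => ((c w i : ℤ) : ZMod q)) ∈ imU q B}.ncard : ℕ) : ℝ) +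
      (({w : Ω | w ∈ S N ∧ ∃ i, ¬ IsUnit ((c w i : ℤ) : ZMod q)}.ncard : ℕ) : ℝ) := by
    exact_mod_cast h3
  have h5 : ((imU q B).ncard : ℝ) * (C * ((q.totient : ℝ) ^ Fintype.card ι)⁻¹) ≤ ε / 4 := by
    have h6 : ((imU q B).ncard : ℝ) * (C * ((q.totient : ℝ) ^ Fintype.card ι)⁻¹) ≤
        ((imU q B).ncard : ℝ) * (C' * ((q.totient : ℝ) ^ Fintype.card ι)⁻¹) := by gcongr
    refine h6.trans ?_
    have h7 := mul_le_mul_of_nonneg_right hb
      (by positivity : (0 : ℝ) ≤ C' * ((q.totient : ℝ) ^ Fintype.card ι)⁻¹)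
    refine h7.trans (le_of_eq ?_)
    field_simp
  have h8 : (0 : ℝ) ≤ ((S N).card : ℝ) := Nat.cast_nonneg _
  nlinarith

theorem rare_of_spread {Ω : Type} {S : ℕ → Finset Ω} {c : Ω → ι → ℤ} {B : Set (ι → ℤ)}
    (hc : Spread S c) (hB : ∀ M : ℕ, 0 < M → ∀ ε : ℝ, 0 < ε → ∃ q : ℕ, 0 < q ∧ q.Coprime M ∧
      (((im q B).ncard : ℕ) : ℝ) ≤ ε * (q : ℝ) ^ Fintype.card ι) : Rare S c B := by
  classical
  intro ε hε
  obtain ⟨C, M, hM, hc⟩ := hc
  set C' : ℝ := max C 1 with hC'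
  have hC1 : (1 : ℝ) ≤ C' := le_max_right _ _
  have hCC : C ≤ C' := le_max_left _ _
  obtain ⟨q, hq, hqM, hb⟩ := hB M hM (ε / (2 * C')) (by positivity)
  have : NeZero q := ⟨hq.ne'⟩
  have hqr : (0 : ℝ) < q := by exact_mod_cast hq
  obtain ⟨N₁, hN₁⟩ := classes_bound hq (hc q hq hqM) (im q B) (ε / 2) (by positivity)
  refine ⟨N₁, fun N hN => ?_⟩
  have h1 := hN₁ N hN
  have hsub : {w : Ω | w ∈ S N ∧ c w ∈ B} ⊆
      {w : Ω | w ∈ S N ∧ (fun i => ((c w i : ℤ) : ZMod q)) ∈ im q B} := by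
    rintro w ⟨hw1, hw2⟩
    exact ⟨hw1, c w, hw2, rfl⟩
  have h4 : (({w : Ω | w ∈ S N ∧ c w ∈ B}.ncard : ℕ) : ℝ) ≤
      (({w : Ω | w ∈ S N ∧ (fun i => ((c w i : ℤ) : ZMod q)) ∈ im q B}.ncard : ℕ) : ℝ) := by
    exact_mod_cast Set.ncard_le_ncard hsub ((S N).finite_toSet.subset fun w hw => hw.1)
  have h5 : ((im q B).ncard : ℝ) * (C * ((q : ℝ) ^ Fintype.card ι)⁻¹) ≤ ε / 2 := by
    have h6 : ((im q B).ncard : ℝ) * (C * ((q : ℝ) ^ Fintype.card ι)⁻¹) ≤
        ((im q B).ncard : ℝ) * (C' * ((q : ℝ) ^ Fintype.card ι)⁻¹) := by gcongr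
    refine h6.trans ?_
    have h7 := mul_le_mul_of_nonneg_right hb
      (by positivity : (0 : ℝ) ≤ C' * ((q : ℝ) ^ Fintype.card ι)⁻¹)
    refine h7.trans (le_of_eq ?_)
    field_simp
  have h8 : (0 : ℝ) ≤ ((S N).card : ℝ) := Nat.cast_nonneg _
  nlinarith

end

end Pool.Agent.Run7.h316.UN
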