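import Pool.Agent.Run7.h316.UN.Def
import Pool.Agent.N24.RW.All

/-!
# Families of integral vectors which almost avoid pronull sets, and unit null sets

Spread families (equidistributed sequences, ...), metric sequences, random orbits and generalised polynomials
for pronull sets; families which are spread over the vectors of units (vectors of primes, ...) for unit null
sets.
-/

set_option autoImplicit false

namespace Pool.Agent.Run7.h316.UN

open Filter Topology MeasureTheory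
open Pool.Agent.Run7.h316.EQ
open Pool.Agent.N24.RW (ProNull Walk orb words)
open Pool.Agent.N24.KM (Koksma Rarely Metric)

section

variable {ι : Type} [Fintype ι]

theorem rare_of_pronull {Ω : Type} {S : ℕ → Finset Ω} {c : Ω → ι → ℤ} {B : Set (ι → ℤ)}
    (hc : Spread S c) (hB : ProNull B) : Rare S c B :=
  rare_of_spread hc ((Pool.Agent.N24.RW.Clo.proNull_iff B).1 hB)

/-- equidistributed sequences are spread -/
theorem spread_of_equi {S : ℕ → Finset ℕ} {c : ℕ → ι → ℤ}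
    (h : Pool.Agent.N918.EQ.Equi S c) : Spread S c := by
  obtain ⟨M, hM, h⟩ := h
  refine ⟨1, M, hM, fun q hq hqM a ε hε => ?_⟩
  obtain ⟨N₀, h1⟩ := h q hq hqM a ε hε
  refine ⟨N₀, fun N hN => ?_⟩
  have h2 := h1 N hN
  simpa using h2

/-- the metric sequences, random orbits and generalised polynomials -/
theorem middle [DecidableEq ι] [Nonempty ι] {I : Type} [Countable I]
    (B : I → Set (ι → ℤ)) (hB : ∀ i, ProNull (B i))
    (Q : ∀ Ω : Type, (ℕ → Finset Ω) → (Ω → ι → ℤ) → Prop)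
    (hQ : ∀ (Ω : Type) (S : ℕ → Finset Ω) (c : Ω → ι → ℤ), (∀ i, Rare S c (B i)) → Q Ω S c) :
    (∀ (a b : ι → ℝ) (f : ι → ℕ → ℝ → ℝ), (∀ i, a i < b i) → (∀ i, Koksma (a i) (b i) (f i)) →
      ∀ᵐ x : ι → ℝ, (∀ i, x i ∈ Set.Icc (a i) (b i)) → Q ℕ Finset.range (fun n i => ⌊f i n (x i)⌋)) ∧
    (∀ (a : ι → ℕ → ℝ) (δ : ℝ), 0 < δ → (∀ i m n, m ≠ n → δ ≤ |a i m - a i n|) →
      ∀ᵐ x : ι → ℝ, Q ℕ Finset.range (fun n i => ⌊a i n * x i⌋)) ∧
    (∀ (k : ℕ → ℕ) (ξ : ι → ℝ), Function.Injective k → (∀ i, ξ i ≠ 0) →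
      ∀ᵐ x : ι → ℝ, (∀ i, 1 < x i) → Q ℕ Finset.range (fun n i => ⌊ξ i * x i ^ k n⌋)) ∧
    (2 ≤ Fintype.card ι → ∀ (W : Walk ι) (v : ι → ℤ), v ≠ 0 →
      ∀ᵐ w ∂(words W.m), Q ℕ Finset.range (orb W v w)) ∧
    (∀ (F : ι → Finset ℝ) (a : ι → ℝ → ℝ) (e : ι → ℝ),
      (∀ i, e i ∈ F i ∧ (∀ t ∈ F i, t ≤ e i) ∧ 0 < e i ∧ (∀ m : ℕ, e i ≠ m) ∧ 0 < a i (e i)) →
      Function.Injective e →
      Q ℕ (fun N => Finset.Ioc N (2 * N)) (fun n i => ⌊∑ t ∈ F i, a i t * (n : ℝ) ^ t⌋) ∧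
      Q ℕ (fun N => (Finset.Ioc N (2 * N)).filter Nat.Prime)
        (fun n i => ⌊∑ t ∈ F i, a i t * (n : ℝ) ^ t⌋)) := by
  refine ⟨fun a b f hab hf => ?_, fun a δ hδ ha => ?_, fun k ξ hk hξ => ?_,
    fun h2 W v hv => ?_, fun F a e he hinj => ?_⟩
  · have h1 : ∀ᵐ x : ι → ℝ, ∀ i, (∀ i, x i ∈ Set.Icc (a i) (b i)) →
        Rare Finset.range (fun n i => ⌊f i n (x i)⌋) (B i) := by
      rw [ae_all_iff]
      intro i
      filter_upwards [(Pool.Agent.N24.KM.main _ (B i) (hB i)).1 a b f hab hf] with x hx hP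
      exact Pool.Agent.N918.EQ.rareIn_of_rarely (hx hP)
    filter_upwards [h1] with x hx hP
    exact hQ _ _ _ fun i => hx i hP
  · have h1 : ∀ᵐ x : ι → ℝ, ∀ i, Rare Finset.range (fun n i => ⌊a i n * x i⌋) (B i) := by
      rw [ae_all_iff]
      intro i
      filter_upwards [(Pool.Agent.N24.KM.main _ (B i) (hB i)).2.1 a δ hδ ha] with x hx
      exact Pool.Agent.N918.EQ.rareIn_of_rarely hx
    filter_upwards [h1] with x hx
    exact hQ _ _ _ hx
  · have h1 : ∀ᵐ x : ι → ℝ, ∀ i, (∀ i, 1 < x i) →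
        Rare Finset.range (fun n i => ⌊ξ i * x i ^ k n⌋) (B i) := by
      rw [ae_all_iff]
      intro i
      filter_upwards [(Pool.Agent.N24.KM.main _ (B i) (hB i)).2.2 k ξ hk hξ] with x hx hP
      exact Pool.Agent.N918.EQ.rareIn_of_rarely (hx hP)
    filter_upwards [h1] with x hx hP
    exact hQ _ _ _ fun i => hx i hP
  · have h1 : ∀ᵐ w ∂(words W.m), ∀ i, Rare Finset.range (orb W v w) (B i) := by
      rw [ae_all_iff]
      intro i
      have h3 : ∀ᵐ w ∂(words W.m), Rarely (orb W v w) (B i) :=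
        Pool.Agent.N24.RW.t_MAIN Pool.Agent.N24.RW.t_ORB Pool.Agent.N24.RW.t_ERG ι h2 W v hv (B i)
          (hB i)
      filter_upwards [h3] with w hw
      exact Pool.Agent.N918.EQ.rareIn_of_rarely hw
    filter_upwards [h1] with w hw
    exact hQ _ _ _ hw
  · obtain ⟨⟨κ, hκ, h1⟩, ⟨κ', hκ', h2⟩⟩ := Pool.Agent.N666.TM.fl_well he hinj
    exact ⟨hQ _ _ _ fun i => Pool.Agent.N918.EQ.rareIn_of_well hκ h1 (hB i),
      hQ _ _ _ fun i => Pool.Agent.N918.EQ.rareIn_of_well hκ' h2 (hB i)⟩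

/-- The property `Q` of a family of integral vectors `c w`, `w` in `Ω`, along finite sets `S N`:
(1) all spread families have it;
(2) for Koksma sequences `f_{i,0}, f_{i,1}, ...` on `[a_i, b_i]` and almost all `x` in the box
`c n = (⌊f_{i,n}(x_i)⌋)_i` has it, along `{0, ..., N - 1}`;
(3) for arbitrary real numbers `a_{i,n}` with `|a_{i,m} - a_{i,n}| ≥ δ > 0`, `m ≠ n`, and almost all `x`
`c n = (⌊a_{i,n} x_i⌋)_i` has it, along `{0, ..., N - 1}`;
(4) for different `k_n`, all `ξ_i ≠ 0` and almost all `x` with all `x_i > 1` `c n = (⌊ξ_i x_i ^ k_n⌋)_i` has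
it, along `{0, ..., N - 1}`;
(5) for matrices `s_0, ..., s_m` in `SL_r(ℤ)`, `r ≥ 2`, which generate `SL_r(ℤ/q)` for all `q` prime to some
number, and every `v ≠ 0` the random orbit `c n = s_{w (n-1)} ... s_{w 0} v` has it for almost all sequences
of letters `w`, along `{0, ..., N - 1}`;
(6) for generalised polynomials with different positive nonintegral leading exponents and positive leading
coefficients `c n = (⌊∑_{t ∈ F_i} a_{i,t} n ^ t⌋)_i` has it, along the integers and along the primes of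
`(N, 2 N]`. -/
def SpreadRobust [DecidableEq ι] (Q : ∀ Ω : Type, (ℕ → Finset Ω) → (Ω → ι → ℤ) → Prop) : Prop :=
  (∀ (Ω : Type) (S : ℕ → Finset Ω) (c : Ω → ι → ℤ), Spread S c → Q Ω S c) ∧
  (∀ (a b : ι → ℝ) (f : ι → ℕ → ℝ → ℝ), (∀ i, a i < b i) → (∀ i, Koksma (a i) (b i) (f i)) →
    ∀ᵐ x : ι → ℝ, (∀ i, x i ∈ Set.Icc (a i) (b i)) → Q ℕ Finset.range (fun n i => ⌊f i n (x i)⌋)) ∧
  (∀ (a : ι → ℕ → ℝ) (δ : ℝ), 0 < δ → (∀ i m n, m ≠ n → δ ≤ |a i m - a i n|) →
    ∀ᵐ x : ι → ℝ, Q ℕ Finset.range (fun n i => ⌊a i n * x i⌋)) ∧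
  (∀ (k : ℕ → ℕ) (ξ : ι → ℝ), Function.Injective k → (∀ i, ξ i ≠ 0) →
    ∀ᵐ x : ι → ℝ, (∀ i, 1 < x i) → Q ℕ Finset.range (fun n i => ⌊ξ i * x i ^ k n⌋)) ∧
  (2 ≤ Fintype.card ι → ∀ (W : Walk ι) (v : ι → ℤ), v ≠ 0 →
    ∀ᵐ w ∂(words W.m), Q ℕ Finset.range (orb W v w)) ∧
  (∀ (F : ι → Finset ℝ) (a : ι → ℝ → ℝ) (e : ι → ℝ),
    (∀ i, e i ∈ F i ∧ (∀ t ∈ F i, t ≤ e i) ∧ 0 < e i ∧ (∀ m : ℕ, e i ≠ m) ∧ 0 < a i (e i)) →
    Function.Injective e →
    Q ℕ (fun N => Finset.Ioc N (2 * N)) (fun n i => ⌊∑ t ∈ F i, a i t * (n : ℝ) ^ t⌋) ∧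
    Q ℕ (fun N => (Finset.Ioc N (2 * N)).filter Nat.Prime)
      (fun n i => ⌊∑ t ∈ F i, a i t * (n : ℝ) ^ t⌋))

/-- The property `Q` of a family of integral vectors `c w`, `w` in `Ω`, along finite sets `S N`:
(1) all families which are spread over the vectors of units have it;
(2) the vectors whose coordinates are primes `≤ N` have it. -/
def UnitRobust [DecidableEq ι] (Q : ∀ Ω : Type, (ℕ → Finset Ω) → (Ω → ι → ℤ) → Prop) : Prop :=
  (∀ (Ω : Type) (S : ℕ → Finset Ω) (c : Ω → ι → ℤ), UnitSpread S c → Q Ω S c) ∧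
  Q (ι → ℤ) (primeBox ι) id

theorem spreadRobust_of [DecidableEq ι] [Nonempty ι] {I : Type} [Countable I]
    (B : I → Set (ι → ℤ)) (hB : ∀ i, ProNull (B i))
    (Q : ∀ Ω : Type, (ℕ → Finset Ω) → (Ω → ι → ℤ) → Prop)
    (hQ : ∀ (Ω : Type) (S : ℕ → Finset Ω) (c : Ω → ι → ℤ), (∀ i, Rare S c (B i)) → Q Ω S c) :
    SpreadRobust Q :=
  ⟨fun Ω S c hc => hQ Ω S c fun i => rare_of_pronull hc (hB i), middle B hB Q hQ⟩

/-- the number of the primes up to `H` tends to infinity -/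
theorem primesTo_large (A : ℕ) : ∃ H₀ : ℕ, ∀ H : ℕ, H₀ ≤ H → A ≤ (primesTo H).card := by
  obtain ⟨s, hs, hsA⟩ := Nat.infinite_setOfPred_prime.exists_subset_card_eq A
  refine ⟨s.sup id, fun H hH => ?_⟩
  rw [← hsA]
  refine Finset.card_le_card fun p hp => ?_
  have h1 : p ≤ s.sup id := Finset.le_sup (f := id) hp
  unfold primesTo
  rw [Finset.mem_filter, Finset.mem_range]
  exact ⟨by omega, hs hp⟩

/-- the vectors of primes are spread over the vectors of units -/
theorem unitSpread_primes [DecidableEq ι] : UnitSpread (ι := ι) (primeBox ι) id := by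
  classical
  refine ⟨20 ^ Fintype.card ι, 1, one_pos, fun q hq0 _ => ⟨fun a ε hε => ?_, fun ε hε => ?_⟩⟩
  · have hφ : (0 : ℝ) < q.totient := by exact_mod_cast Nat.totient_pos.2 hq0
    obtain ⟨H₀, hH₀⟩ := class_upper q hq0
    refine ⟨H₀, fun H hH => ?_⟩
    have h1 : {w : ι → ℤ | w ∈ primeBox ι H ∧ ∀ i, ((id w i : ℤ) : ZMod q) = a i} =
        ((Fintype.piFinset fun i => ((Finset.range (H + 1)).filter
          (fun p : ℕ => p.Prime ∧ ((p : ℕ) : ZMod q) = a i)).map Nat.castEmbedding :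
            Finset (ι → ℤ)) : Set (ι → ℤ)) := by
      ext w
      simp only [primeBox, primesTo, Set.mem_ofPred_eq, Fintype.mem_piFinset, Finset.mem_coe,
        Finset.mem_map, Finset.mem_filter, Finset.mem_range, Nat.castEmbedding_apply, id_eq]
      constructor
      · rintro ⟨h1, h2⟩ i
        obtain ⟨p, hp, hpw⟩ := h1 i
        refine ⟨p, ⟨hp.1, hp.2, ?_⟩, hpw⟩
        have h3 := h2 i
        rw [← hpw] at h3
        simpa using h3
      · intro h
        refine ⟨fun i => ?_, fun i => ?_⟩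
        · obtain ⟨p, hp, hpw⟩ := h i
          exact ⟨p, ⟨hp.1, hp.2.1⟩, hpw⟩
        · obtain ⟨p, hp, hpw⟩ := h i
          rw [← hpw, ← hp.2.2]
          simp
    rw [h1, Set.ncard_coe_finset, Fintype.card_piFinset, Nat.cast_prod]
    have h2 : ∏ i, ((((((Finset.range (H + 1)).filter
        (fun p : ℕ => p.Prime ∧ ((p : ℕ) : ZMod q) = a i)).map Nat.castEmbedding :
          Finset ℤ)).card : ℕ) : ℝ) ≤ ∏ _i : ι, (20 / (q.totient : ℝ) * (primesTo H).card) := by
      refine Finset.prod_le_prod (fun i _ => Nat.cast_nonneg _) fun i _ => ?_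
      rw [Finset.card_map]
      exact hH₀ H hH (a i)
    refine h2.trans ?_
    rw [Finset.prod_const, Finset.card_univ]
    have h3 : ((primeBox ι H).card : ℝ) = ((primesTo H).card : ℝ) ^ Fintype.card ι := by
      unfold primeBox
      rw [Fintype.card_piFinset]
      simp [Finset.card_map]
    rw [h3, mul_pow, div_pow, div_eq_mul_inv, add_mul]
    have h5 : 0 ≤ ε * ((primesTo H).card : ℝ) ^ Fintype.card ι := by positivity
    linarith
  · -- the vectors with a prime divisor of `q`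
    obtain ⟨A, hA⟩ := exists_nat_gt ((Fintype.card ι : ℝ) * (q + 1) / ε)
    obtain ⟨H₀, hH₀⟩ := primesTo_large (A + 1)
    refine ⟨H₀, fun H hH => ?_⟩
    have hn : (A : ℝ) ≤ (primesTo H).card := by
      have := hH₀ H hH
      exact_mod_cast (by omega : A ≤ (primesTo H).card)
    have hn1 : 1 ≤ (primesTo H).card := by
      have := hH₀ H hH
      omega
    set n : ℕ := (primesTo H).card with hn'
    set D : Finset ℤ := ((primesTo H).filter fun p => p ∣ q).map Nat.castEmbedding with hD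
    set U : Finset ℤ := (primesTo H).map Nat.castEmbedding with hU
    have hUc : U.card = n := by rw [hU, Finset.card_map]
    have hDc : D.card ≤ q + 1 := by
      rw [hD, Finset.card_map]
      refine (Finset.card_le_card (t := Finset.range (q + 1)) ?_).trans (by simp)
      intro p hp
      rw [Finset.mem_filter] at hp
      rw [Finset.mem_range]
      have := Nat.le_of_dvd hq0 hp.2
      omega
    have hsub : {w : ι → ℤ | w ∈ primeBox ι H ∧ ∃ i, ¬ IsUnit ((id w i : ℤ) : ZMod q)} ⊆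
        ((Finset.univ.biUnion fun i : ι =>
          Fintype.piFinset (fun j => if j = i then D else U) : Finset (ι → ℤ)) : Set (ι → ℤ)) := by
      rintro w ⟨hw, i, hi⟩
      rw [Finset.mem_coe, Finset.mem_biUnion]
      refine ⟨i, Finset.mem_univ i, ?_⟩
      rw [Fintype.mem_piFinset]
      have hw' : ∀ j, w j ∈ U := by
        intro j
        exact Fintype.mem_piFinset.1 hw j
      intro j
      by_cases hj : j = i
      · rw [if_pos hj, hj, hD, Finset.mem_map]
        have h1 := hw' i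
        rw [hU, Finset.mem_map] at h1
        obtain ⟨p, hp, hpw⟩ := h1
        refine ⟨p, Finset.mem_filter.2 ⟨hp, ?_⟩, hpw⟩
        have hpp : p.Prime := by
          unfold primesTo at hp
          exact (Finset.mem_filter.1 hp).2
        by_contra hpq
        apply hi
        have h2 : ((id w i : ℤ) : ZMod q) = ((p : ℕ) : ZMod q) := by
          rw [id_eq, ← hpw]
          simp
        rw [h2, ZMod.isUnit_iff_coprime]
        exact hpp.coprime_iff_not_dvd.2 hpq
      · rw [if_neg hj]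
        exact hw' j
    have h1 := Set.ncard_le_ncard hsub (Finset.finite_toSet _)
    rw [Set.ncard_coe_finset] at h1
    have h2 : (Finset.univ.biUnion fun i : ι =>
        Fintype.piFinset (fun j => if j = i then D else U) : Finset (ι → ℤ)).card * n ≤
        Fintype.card ι * ((q + 1) * n ^ Fintype.card ι) := by
      refine (Nat.mul_le_mul_right n Finset.card_biUnion_le).trans ?_
      rw [Finset.sum_mul, ← Finset.card_univ (α := ι), ← smul_eq_mul (a := Finset.univ.card),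
        ← Finset.sum_const]
      refine Finset.sum_le_sum fun i _ => ?_
      rw [Fintype.card_piFinset, ← Finset.mul_prod_erase _ _ (Finset.mem_univ i), if_pos rfl]
      have h3 : ∏ j ∈ Finset.univ.erase i, (if j = i then D else U).card =
          n ^ (Fintype.card ι - 1) := by
        rw [Finset.prod_congr rfl (g := fun _ => n) (fun j hj => by
          rw [if_neg (Finset.ne_of_mem_erase hj), hUc]), Finset.prod_const,
          Finset.card_erase_of_mem (Finset.mem_univ i), Finset.card_univ]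
      rw [h3]
      have hι : 1 ≤ Fintype.card ι := Fintype.card_pos_iff.2 ⟨i⟩
      have h4 : n ^ (Fintype.card ι - 1) * n = n ^ Fintype.card ι := by
        rw [← pow_succ, Nat.sub_add_cancel hι]
      calc D.card * n ^ (Fintype.card ι - 1) * n = D.card * (n ^ (Fintype.card ι - 1) * n) := by
            ring
        _ = D.card * n ^ Fintype.card ι := by rw [h4]
        _ ≤ (q + 1) * n ^ Fintype.card ι := Nat.mul_le_mul_right _ hDc
        _ = (q + 1) * n ^ (Finset.univ : Finset ι).card := by rw [Finset.card_univ]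
    have h3 : ((primeBox ι H).card : ℝ) = (n : ℝ) ^ Fintype.card ι := by
      unfold primeBox
      rw [Fintype.card_piFinset]
      simp [Finset.card_map, hn']
    rw [h3]
    have hn0 : (0 : ℝ) < n := by exact_mod_cast hn1
    set X : ℝ := (({w : ι → ℤ | w ∈ primeBox ι H ∧ ∃ i, ¬ IsUnit ((id w i : ℤ) : ZMod q)}.ncard : ℕ) :
      ℝ) with hX
    have h4 : X * n ≤ Fintype.card ι * ((q + 1) * (n : ℝ) ^ Fintype.card ι) := by
      have h5 := (Nat.mul_le_mul_right n h1).trans h2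
      rw [hX]
      exact_mod_cast h5
    have h5 : (Fintype.card ι : ℝ) * (q + 1) ≤ ε * n := by
      have h6 : (Fintype.card ι : ℝ) * (q + 1) / ε ≤ n := hA.le.trans hn
      rw [div_le_iff₀ hε] at h6
      linarith
    have h6 : X * n ≤ (ε * (n : ℝ) ^ Fintype.card ι) * n := by
      calc X * n ≤ Fintype.card ι * ((q + 1) * (n : ℝ) ^ Fintype.card ι) := h4
        _ = ((Fintype.card ι : ℝ) * (q + 1)) * (n : ℝ) ^ Fintype.card ι := by ring
        _ ≤ (ε * n) * (n : ℝ) ^ Fintype.card ι := mul_le_mul_of_nonneg_right h5 (by positivity)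
        _ = _ := by ring
    exact le_of_mul_le_mul_right h6 hn0

theorem unitRobust_of [DecidableEq ι] {I : Type}
    (B : I → Set (ι → ℤ)) (hB : ∀ i, UnitNull (B i))
    (Q : ∀ Ω : Type, (ℕ → Finset Ω) → (Ω → ι → ℤ) → Prop)
    (hQ : ∀ (Ω : Type) (S : ℕ → Finset Ω) (c : Ω → ι → ℤ), (∀ i, Rare S c (B i)) → Q Ω S c) :
    UnitRobust Q :=
  ⟨fun Ω S c hc => hQ Ω S c fun i => rare_of_unit hc (hB i),
    hQ _ _ _ fun i => rare_of_unit unitSpread_primes (hB i)⟩

theorem SpreadRobust.imp [DecidableEq ι]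
    {Q Q' : ∀ Ω : Type, (ℕ → Finset Ω) → (Ω → ι → ℤ) → Prop} (hQ : SpreadRobust Q)
    (h : ∀ (Ω : Type) (S : ℕ → Finset Ω) (c : Ω → ι → ℤ), Q Ω S c → Q' Ω S c) :
    SpreadRobust Q' := by
  obtain ⟨h1, h2, h3, h4, h5, h6⟩ := hQ
  refine ⟨fun Ω S c hc => h _ _ _ (h1 Ω S c hc), fun a b f hab hf => ?_, fun a δ hδ ha => ?_,
    fun k ξ hk hξ => ?_, fun hc W v hv => ?_, fun F a e he hinj => ?_⟩
  · filter_upwards [h2 a b f hab hf] with x hx hP
    exact h _ _ _ (hx hP)
  · filter_upwards [h3 a δ hδ ha] with x hx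
    exact h _ _ _ hx
  · filter_upwards [h4 k ξ hk hξ] with x hx hP
    exact h _ _ _ (hx hP)
  · filter_upwards [h5 hc W v hv] with w hw
    exact h _ _ _ hw
  · exact ⟨h _ _ _ (h6 F a e he hinj).1, h _ _ _ (h6 F a e he hinj).2⟩

theorem UnitRobust.imp [DecidableEq ι]
    {Q Q' : ∀ Ω : Type, (ℕ → Finset Ω) → (Ω → ι → ℤ) → Prop} (hQ : UnitRobust Q)
    (h : ∀ (Ω : Type) (S : ℕ → Finset Ω) (c : Ω → ι → ℤ), Q Ω S c → Q' Ω S c) :
    UnitRobust Q' :=
  ⟨fun Ω S c hc => h _ _ _ (hQ.1 Ω S c hc), h _ _ _ hQ.2⟩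

end

end Pool.Agent.Run7.h316.UN
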