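import Pool.Agent.Run7.h316.UN.Lin
import Pool.Agent.Run7.h316.UN.Rob
import Pool.Agent.N891.LT.Rare

/-!
# Prime divisors `p ≡ 1 (mod q)` of the values of polynomials at linear forms in units: unit null sets

After `Pool.Agent.N891.LT.Pro` (helper891), which treats all vectors.
-/

set_option autoImplicit false

namespace Pool.Agent.Run7.h316.UN

open Polynomial
open Pool.Agent.Run7.h316.EQ
open Pool.Agent.N891.LT (Far PQ PQ_diverges diverges_of_subset pol pol_eval pol_ne zeros_small)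

section

variable {ι : Type} [Fintype ι]

theorem at_mul {q q' : ℕ} (hq : 0 < q) (hq' : 0 < q') (hc : q.Coprime q') {B : Set (ι → ℤ)} {δ : ℝ}
    (h : (((imU q B).ncard : ℕ) : ℝ) ≤ δ * (q.totient : ℝ) ^ Fintype.card ι) :
    (((imU (q * q') B).ncard : ℕ) : ℝ) ≤ δ * ((q * q').totient : ℝ) ^ Fintype.card ι := by
  have h1 : (imU (q * q') B).ncard ≤ (imU q B).ncard * q'.totient ^ Fintype.card ι :=
    (imU_mul_le hq hq' hc B).trans (Nat.mul_le_mul_left _ (imU_le hq' B))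
  have h2 : (((imU (q * q') B).ncard : ℕ) : ℝ) ≤
      ((imU q B).ncard : ℝ) * (q'.totient : ℝ) ^ Fintype.card ι := by exact_mod_cast h1
  rw [Nat.totient_mul hc, Nat.cast_mul, mul_pow, ← mul_assoc]
  exact h2.trans (mul_le_mul_of_nonneg_right h (by positivity))

/-- a unit null set and finitely many sets which are small modulo different primes -/
theorem mix {A : Set (ι → ℤ)} (hA : UnitNull A) {ε : ℝ} (hε : 0 < ε) (Z : ℕ → Set (ι → ℤ)) (δ : ℝ)
    (F : Finset ℕ) (hp : ∀ q ∈ F, q.Prime)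
    (hZ : ∀ q ∈ F, (((imU q (Z q)).ncard : ℕ) : ℝ) ≤ δ * (q.totient : ℝ) ^ Fintype.card ι) :
    ∀ D : ℕ, 0 < D → (∀ q ∈ F, q.Coprime D) → ∃ Q : ℕ, 0 < Q ∧ Q.Coprime D ∧
      (((imU Q (A ∪ ⋃ q ∈ F, Z q)).ncard : ℕ) : ℝ) ≤
        (ε + F.card * δ) * (Q.totient : ℝ) ^ Fintype.card ι := by
  classical
  induction F using Finset.induction_on with
  | empty =>
    intro D hD _
    obtain ⟨Q, h1, h2, h3⟩ := hA ε hε D hD
    refine ⟨Q, h1, h2, ?_⟩
    simpa using h3
  | insert a F ha ih =>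
    intro D hD hFD
    have hap := hp a (Finset.mem_insert_self _ _)
    obtain ⟨Q, h1, h2, h3⟩ := ih (fun q hq => hp q (Finset.mem_insert_of_mem hq))
      (fun q hq => hZ q (Finset.mem_insert_of_mem hq)) (D * a) (Nat.mul_pos hD hap.pos)
      (fun q hq => Nat.Coprime.mul_right (hFD q (Finset.mem_insert_of_mem hq))
        ((Nat.coprime_primes (hp q (Finset.mem_insert_of_mem hq)) hap).2 (by
          rintro rfl
          exact ha hq)))
    have hQa : Q.Coprime a := Nat.Coprime.coprime_mul_left_right h2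
    have hQD : Q.Coprime D := Nat.Coprime.coprime_mul_right_right h2
    refine ⟨Q * a, Nat.mul_pos h1 hap.pos,
      Nat.Coprime.mul_left hQD (hFD a (Finset.mem_insert_self _ _)), ?_⟩
    have : NeZero (Q * a) := ⟨(Nat.mul_pos h1 hap.pos).ne'⟩
    have e1 : imU (Q * a) (A ∪ ⋃ q ∈ insert a F, Z q) ⊆
        imU (Q * a) (A ∪ ⋃ q ∈ F, Z q) ∪ imU (Q * a) (Z a) := by
      rintro _ ⟨⟨c, hc, rfl⟩, hu⟩
      rw [Finset.set_biUnion_insert] at hc
      rcases hc with hc | hc | hc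
      · exact Or.inl ⟨⟨c, Or.inl hc, rfl⟩, hu⟩
      · exact Or.inr ⟨⟨c, hc, rfl⟩, hu⟩
      · exact Or.inl ⟨⟨c, Or.inr hc, rfl⟩, hu⟩
    have h4 := (Set.ncard_le_ncard e1 (Set.toFinite _)).trans (Set.ncard_union_le _ _)
    have h5 := at_mul h1 hap.pos hQa h3
    have h6 := at_mul hap.pos h1 hQa.symm (hZ a (Finset.mem_insert_self _ _))
    rw [mul_comm a Q] at h6
    have h7 : (((imU (Q * a) (A ∪ ⋃ q ∈ insert a F, Z q)).ncard : ℕ) : ℝ) ≤
        (((imU (Q * a) (A ∪ ⋃ q ∈ F, Z q)).ncard : ℕ) : ℝ) +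
          (((imU (Q * a) (Z a)).ncard : ℕ) : ℝ) := by exact_mod_cast h4
    rw [Finset.card_insert_of_notMem ha]
    push_cast
    linarith

/-- the classes of vectors of units modulo a large prime which are zeros of a polynomial -/
theorem zerosU (R : MvPolynomial ι ℤ) (hR : R ≠ 0) :
    ∃ T : ℕ, ∀ q : ℕ, q.Prime → T < q →
      (((imU q {c : ι → ℤ | (q : ℤ) ∣ MvPolynomial.eval c R}).ncard : ℕ) : ℝ) ≤
        (R.totalDegree * 2 ^ Fintype.card ι : ℝ) / q * (q.totient : ℝ) ^ Fintype.card ι := by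
  obtain ⟨T, hT⟩ := zeros_small R hR
  refine ⟨T, fun q hq hqT => ?_⟩
  have : NeZero q := ⟨hq.ne_zero⟩
  have h1 : (((imU q {c : ι → ℤ | (q : ℤ) ∣ MvPolynomial.eval c R}).ncard : ℕ) : ℝ) ≤
      (Pool.Agent.N24.RW.Clo.nc q {c : ι → ℤ | (q : ℤ) ∣ MvPolynomial.eval c R} : ℝ) :=
    Nat.cast_le.2 (Set.ncard_le_ncard Set.inter_subset_left (Set.toFinite _))
  have hq0 : (0 : ℝ) < q := by exact_mod_cast hq.pos
  have h2 : (q : ℝ) ≤ 2 * (q.totient : ℝ) := by
    rw [Nat.totient_prime hq]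
    have := hq.two_le
    exact_mod_cast (by omega : q ≤ 2 * (q - 1))
  calc (((imU q {c : ι → ℤ | (q : ℤ) ∣ MvPolynomial.eval c R}).ncard : ℕ) : ℝ)
      ≤ (R.totalDegree : ℝ) / q * (q : ℝ) ^ Fintype.card ι := h1.trans (hT q hq hqT)
    _ ≤ (R.totalDegree : ℝ) / q * (2 * (q.totient : ℝ)) ^ Fintype.card ι := by gcongr
    _ = _ := by
      rw [mul_pow]
      ring

/-- a linear form avoids given residues modulo the primes of a large set -/
theorem unit_hit_null (lam : ι → ℤ) (P : Set ℕ) (hP : ∀ p ∈ P, p.Prime)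
    (hdiv : ¬ Summable (P.indicator fun n : ℕ => (1 : ℝ) / n)) (t : ∀ p : ℕ, ZMod p)
    (hl : TwoNonzero lam ∨ (lam ≠ 0 ∧ ∀ p ∈ P, t p ≠ 0)) :
    UnitNull {c : ι → ℤ | ∀ p ∈ P, ((∑ i, lam i * c i : ℤ) : ZMod p) ≠ t p} := by
  classical
  set Z : ∀ p : ℕ, Set (ZMod (p ^ 1)) := fun p => {z | rd p 1 le_rfl z = t p} with hZ
  obtain ⟨D₀, hD₀⟩ : ∃ D₀ : ℕ, ∀ p : ℕ, p.Prime → D₀ < p → p ∈ P →
      (p ^ 1).totient ^ Fintype.card ι ≤ 2 * ((p ^ 1).totient *
        {x : ι → ZMod (p ^ 1) | x ∈ V ι (p ^ 1) ∧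
          ∑ i, ((lam i : ℤ) : ZMod (p ^ 1)) * x i ∈ Z p}.ncard) := by
    by_cases h2 : TwoNonzero lam
    · obtain ⟨l, l', hne, hl, hl'⟩ := h2
      refine ⟨max ((lam l).natAbs + (lam l').natAbs) 3, fun p hp hpD hpP => ?_⟩
      have hpl : (lam l).natAbs + (lam l').natAbs < p := (le_max_left _ _).trans_lt hpD
      have hp3 : 3 < p := (le_max_right _ _).trans_lt hpD
      have h1 := lin_count hp hp3.le le_rfl (fun i => ((lam i : ℤ) : ZMod (p ^ 1)))
        l l' hne (unit_of_large hp hl (by omega) 1) (unit_of_large hp hl' (by omega) 1)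
        (Z p) (t p) (fun z hz => hz)
      rw [show (Z p).ncard = 1 by
        have := fiber_card hp le_rfl (t p)
        rw [Nat.sub_self, pow_zero] at this
        exact this, one_mul] at h1
      exact h1
    · rcases hl with h | ⟨hl0, ht⟩
      · exact absurd h h2
      obtain ⟨l, hl⟩ := Function.ne_iff.1 hl0
      have hl' : lam l ≠ 0 := hl
      have h0 : ∀ i, i ≠ l → lam i = 0 := by
        intro i hi
        by_contra h3
        exact h2 ⟨i, l, hi, h3, hl'⟩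
      refine ⟨(lam l).natAbs, fun p hp hpD hpP => ?_⟩
      have h1 := lin_single (q := p ^ 1) (Nat.pow_pos hp.pos)
        (fun i => ((lam i : ℤ) : ZMod (p ^ 1))) l (unit_of_large hp hl' hpD 1)
        (fun i hi => by rw [h0 i hi, Int.cast_zero]) (Z p) (fun z hz => by
          rw [isUnit_iff hp le_rfl]
          have hz' : rd p 1 le_rfl z = t p := hz
          rw [hz']
          exact ht p hpP)
      rw [show (Z p).ncard = 1 by
        have := fiber_card hp le_rfl (t p)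
        rw [Nat.sub_self, pow_zero] at this
        exact this, one_mul] at h1
      refine h1.trans ?_
      omega
  set w : ℕ → ℝ := fun p => if p ∈ P then 1 / (2 * (p : ℝ)) else 0 with hw
  have hw0 : ∀ p, 0 ≤ w p := by
    intro p
    simp only [hw]
    split_ifs <;> positivity
  have hns : ¬ Summable (fun p : ℕ => if p.Prime then w p else 0) := by
    intro hsum
    apply hdiv
    have h1 := hsum.mul_left 2
    refine h1.congr fun p => ?_
    by_cases hpP : p ∈ P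
    · have h3 : (p : ℝ) ≠ 0 := by exact_mod_cast (hP p hpP).ne_zero
      rw [if_pos (hP p hpP), Set.indicator_of_mem hpP]
      simp only [hw, if_pos hpP]
      field_simp
    · rw [Set.indicator_of_notMem hpP]
      simp only [hw, if_neg hpP, ite_self, mul_zero]
  refine unitNull_of_tests 1 w hw0 hns D₀ fun p hp hpD => ?_
  by_cases hpP : p ∈ P
  · refine ⟨{x : ι → ZMod (p ^ 1) | x ∈ V ι (p ^ 1) ∧
      ∑ i, ((lam i : ℤ) : ZMod (p ^ 1)) * x i ∈ Z p}, fun x hx => hx.1, ?_, ?_⟩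
    · have h1 := hD₀ p hp hpD hpP
      have hp0 : (0 : ℝ) < p := by exact_mod_cast hp.pos
      set n : ℝ := (({x : ι → ZMod (p ^ 1) | x ∈ V ι (p ^ 1) ∧
        ∑ i, ((lam i : ℤ) : ZMod (p ^ 1)) * x i ∈ Z p}.ncard : ℕ) : ℝ) with hn
      have hn0 : 0 ≤ n := Nat.cast_nonneg _
      have h3 : ((p ^ 1).totient : ℝ) ^ Fintype.card ι ≤ 2 * (((p ^ 1).totient : ℝ) * n) := by
        rw [hn]
        exact_mod_cast h1
      have h4 : ((p ^ 1).totient : ℝ) ≤ p := by
        have := Nat.totient_le (p ^ 1)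
        rw [pow_one] at this ⊢
        exact_mod_cast this
      have h6 : w p = 1 / (2 * (p : ℝ)) := by simp only [hw, hpP, if_true]
      rw [h6, div_mul_eq_mul_div, one_mul, div_le_iff₀ (by positivity)]
      have := mul_le_mul_of_nonneg_right h4 hn0
      linarith
    · rintro c hc ⟨-, hmem⟩
      apply hc p hpP
      have h1 : rd p 1 le_rfl (∑ i, ((lam i : ℤ) : ZMod (p ^ 1)) * (c i : ZMod (p ^ 1))) = t p := hmem
      rw [← h1, map_sum]
      push_cast
      refine Finset.sum_congr rfl fun i _ => ?_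
      rw [map_mul, map_intCast, map_intCast]
  · refine ⟨∅, Set.empty_subset _, ?_, fun c _ hmem => hmem⟩
    have h6 : w p = 0 := by simp only [hw, hpP, if_false]
    rw [h6, zero_mul]
    exact Nat.cast_nonneg _

/-- The linear form and the polynomial: at least two coefficients of `lam` are different from zero, or `h` is
not a monomial. -/
def Nice {ι : Type} (lam : ι → ℤ) (h : ℤ[X]) : Prop :=
  TwoNonzero lam ∨ (lam ≠ 0 ∧ ∀ (a : ℤ) (j : ℕ), h ≠ C a * X ^ j)

omit [Fintype ι] in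
theorem Nice.ne {lam : ι → ℤ} {h : ℤ[X]} (hl : Nice lam h) : lam ≠ 0 := by
  rcases hl with h1 | h1
  · exact h1.ne
  · exact h1.1

/-- a polynomial which is not a monomial -/
theorem not_monomial {h : ℤ[X]} (hd : 0 < h.natDegree) (hm : ∀ (a : ℤ) (j : ℕ), h ≠ C a * X ^ j) :
    ∃ (j : ℕ) (g : ℤ[X]), h = X ^ j * g ∧ g.coeff 0 ≠ 0 ∧ 0 < g.natDegree := by
  have h0 : h ≠ 0 := by
    rintro rfl
    simp at hd
  obtain ⟨g, hg1, hg2⟩ := Polynomial.exists_eq_pow_rootMultiplicity_mul_and_not_dvd h h0 0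
  rw [C_0, sub_zero] at hg1 hg2
  rw [X_dvd_iff] at hg2
  refine ⟨_, g, hg1, hg2, ?_⟩
  by_contra hn
  have hn0 : g.natDegree = 0 := by omega
  obtain ⟨a, ha⟩ := natDegree_eq_zero.1 hn0
  apply hm a (rootMultiplicity 0 h)
  rw [ha, mul_comm]
  exact hg1

/-- the primes and the residues -/
theorem residues {lam : ι → ℤ} {h : ℤ[X]} (hd : 0 < h.natDegree) (hl : Nice lam h) {q : ℕ}
    (hq : q.Prime) : ∃ (P : Set ℕ) (t : ∀ p : ℕ, ZMod p),
      (∀ p ∈ P, p.Prime ∧ q ∣ p - 1 ∧ h.eval₂ (Int.castRingHom (ZMod p)) (t p) = 0) ∧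
      ¬ Summable (P.indicator fun n : ℕ => (1 : ℝ) / n) ∧
      (TwoNonzero lam ∨ (lam ≠ 0 ∧ ∀ p ∈ P, t p ≠ 0)) := by
  classical
  rcases hl with h2 | ⟨hl0, hm⟩
  · choose! t ht using fun (p : ℕ) (hp : p ∈ PQ h q) => hp.2.2
    exact ⟨PQ h q, t, fun p hp => ⟨hp.1, hp.2.1, ht p hp⟩, PQ_diverges h hd hq, Or.inl h2⟩
  · obtain ⟨j, g, hg, hg0, hgd⟩ := not_monomial hd hm
    choose! t ht using fun (p : ℕ) (hp : p ∈ PQ g q) => hp.2.2
    refine ⟨PQ g q ∩ {p | (g.coeff 0).natAbs < p}, t, fun p hp => ⟨hp.1.1, hp.1.2.1, ?_⟩, ?_,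
      Or.inr ⟨hl0, ?_⟩⟩
    · rw [hg, eval₂_mul, ht p hp.1, mul_zero]
    · refine diverges_of_subset (Set.Iic (g.coeff 0).natAbs) (Set.finite_Iic _) ?_
        (PQ_diverges g hgd hq)
      intro p hp
      by_cases h1 : p ≤ (g.coeff 0).natAbs
      · exact Or.inr h1
      · exact Or.inl ⟨hp, not_le.1 h1⟩
    · rintro p ⟨hp, hpl⟩ h0
      have h1 := ht p hp
      rw [h0] at h1
      have h2 : g.eval₂ (Int.castRingHom (ZMod p)) 0 = ((g.coeff 0 : ℤ) : ZMod p) := by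
        have h3 := Polynomial.eval₂_at_intCast (Int.castRingHom (ZMod p)) (0 : ℤ) (p := g)
        rw [Int.cast_zero] at h3
        rw [h3, coeff_zero_eq_eval_zero]
        rfl
      rw [h2, ZMod.intCast_zmod_eq_zero_iff_dvd] at h1
      have h3 := Nat.le_of_dvd (Int.natAbs_pos.2 hg0) (Int.natCast_dvd.1 h1)
      have h4 : (g.coeff 0).natAbs < p := hpl
      omega

/-- **main lemma** -/
theorem unit_far [DecidableEq ι] (lam : ι → ℤ) (h : ℤ[X]) (hd : 0 < h.natDegree)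
    (hl : Nice lam h) (G : ℤ[X]) (hG : G ≠ 0) (k : ℕ) :
    UnitNull {c : ι → ℤ | ¬ Far G k (h.eval (∑ i, lam i * c i))} := by
  classical
  have hGh : G.comp h ≠ 0 := by
    intro h1
    rcases (comp_eq_zero_iff).1 h1 with h2 | ⟨_, h2⟩
    · exact hG h2
    · rw [h2, natDegree_C] at hd
      exact lt_irrefl _ hd
  set R := pol lam (G.comp h) with hR
  obtain ⟨T, hT⟩ := zerosU R (pol_ne lam hl.ne _ hGh)
  intro ε hε D₁ hD₁
  set E : ℝ := (R.totalDegree * 2 ^ Fintype.card ι : ℝ) with hE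
  have hE0 : 0 ≤ E := by positivity
  set D : ℝ := 2 * (k + 1) * E / ε with hD
  obtain ⟨F, hF, hFk⟩ := (Nat.infinite_setOfPred_prime.sdiff
    (Set.finite_Iic (T + D₁ + ⌈D⌉₊))).exists_subset_card_eq k
  have hFp : ∀ q ∈ F, q.Prime := fun q hq => (hF hq).1
  have hFl : ∀ q ∈ F, T + D₁ + ⌈D⌉₊ < q := fun q hq => not_le.1 (hF hq).2
  choose! P t hPt using fun (q : ℕ) (hq : q.Prime) => residues hd hl hq
  set N : ℕ → Set (ι → ℤ) := fun q =>
    {c | ∀ p ∈ P q, ((∑ i, lam i * c i : ℤ) : ZMod p) ≠ t q p} with hN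
  have hNn : UnitNull (⋃ q ∈ F, N q) := UnitNull.biUnion F fun q hq => by
    obtain ⟨h1, h2, h3⟩ := hPt q (hFp q hq)
    exact unit_hit_null lam (P q) (fun p hp => (h1 p hp).1) h2 (t q) h3
  obtain ⟨Q, hQ, hQD, hb⟩ := mix hNn (half_pos hε)
    (fun q => {c : ι → ℤ | (q : ℤ) ∣ MvPolynomial.eval c R}) (ε / (2 * (k + 1))) F hFp
    (fun q hq => by
      have h4 := hT q (hFp q hq) (by have := hFl q hq; omega)
      refine h4.trans (mul_le_mul_of_nonneg_right ?_ (by positivity))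
      have hq0' : (0 : ℝ) < q := by exact_mod_cast (hFp q hq).pos
      have h5 : D ≤ q := by
        refine (Nat.le_ceil D).trans ?_
        have := hFl q hq
        exact_mod_cast (by omega : ⌈D⌉₊ ≤ q)
      rw [div_le_div_iff₀ hq0' (by positivity)]
      rw [hD, div_le_iff₀ hε] at h5
      linarith) D₁ hD₁ (fun q hq => by
      rw [(hFp q hq).coprime_iff_not_dvd]
      intro h1
      have h2 := Nat.le_of_dvd hD₁ h1
      have h3 := hFl q hq
      omega)
  refine ⟨Q, hQ, hQD, ?_⟩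
  have hsub : {c : ι → ℤ | ¬ Far G k (h.eval (∑ i, lam i * c i))} ⊆
      (⋃ q ∈ F, N q) ∪ ⋃ q ∈ F, {c : ι → ℤ | (q : ℤ) ∣ MvPolynomial.eval c R} := by
    intro c hc
    by_contra hcon
    rw [Set.mem_union, not_or, Set.mem_iUnion₂, Set.mem_iUnion₂] at hcon
    obtain ⟨c1, c2⟩ := hcon
    apply hc
    refine ⟨F, hFk, fun q hq => ⟨hFp q hq, ?_, ?_⟩⟩
    · intro h1
      apply c2
      refine ⟨q, hq, ?_⟩
      show (q : ℤ) ∣ MvPolynomial.eval c R
      rw [hR, pol_eval, eval_comp]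
      exact h1
    · have h1 : c ∉ N q := fun h2 => c1 ⟨q, hq, h2⟩
      simp only [hN, Set.mem_ofPred_eq, not_forall, not_not] at h1
      obtain ⟨p, hp, h2⟩ := h1
      obtain ⟨hp1, hp2, hp3⟩ := (hPt q (hFp q hq)).1 p hp
      refine ⟨p, hp1, ?_, hp2⟩
      rw [← ZMod.intCast_zmod_eq_zero_iff_dvd]
      rw [← h2] at hp3
      have h4 := Polynomial.eval₂_at_intCast (Int.castRingHom (ZMod p)) (∑ i, lam i * c i) (p := h)
      rw [hp3] at h4
      rw [Int.coe_castRingHom] at h4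
      exact_mod_cast h4.symm
  have h1 : (((imU Q {c : ι → ℤ | ¬ Far G k (h.eval (∑ i, lam i * c i))}).ncard : ℕ) : ℝ) ≤
      (ε / 2 + F.card * (ε / (2 * (k + 1)))) * (Q.totient : ℝ) ^ Fintype.card ι :=
    (Nat.cast_le.2 (imU_ncard_mono hQ hsub)).trans hb
  refine h1.trans (mul_le_mul_of_nonneg_right ?_ (by positivity))
  rw [hFk]
  have h2 : (k : ℝ) * (ε / (2 * (k + 1))) ≤ ε / 2 := by
    rw [mul_div_assoc', div_le_div_iff₀ (by positivity) (by norm_num)]
    have : (0 : ℝ) ≤ k := Nat.cast_nonneg k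
    nlinarith
  linarith

end

/-! ### Families -/

section

variable {ι : Type} {Ω : Type} {S : ℕ → Finset Ω} {c : Ω → ι → ℤ}

theorem rare_empty' : Rare S c (∅ : Set (ι → ℤ)) := by
  intro ε hε
  refine ⟨0, fun N _ => ?_⟩
  simp only [Set.mem_empty_iff_false, and_false]
  rw [show {w : Ω | False} = ∅ from rfl, Set.ncard_empty, Nat.cast_zero]
  positivity

theorem rare_union' {A B : Set (ι → ℤ)} (hA : Rare S c A) (hB : Rare S c B) :
    Rare S c (A ∪ B) := by
  intro ε hε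
  obtain ⟨N₁, h1⟩ := hA (ε / 2) (by positivity)
  obtain ⟨N₂, h2⟩ := hB (ε / 2) (by positivity)
  refine ⟨max N₁ N₂, fun N hN => ?_⟩
  have h3 := h1 N ((le_max_left _ _).trans hN)
  have h4 := h2 N ((le_max_right _ _).trans hN)
  have hsub : {w : Ω | w ∈ S N ∧ c w ∈ A ∪ B} ⊆
      {w : Ω | w ∈ S N ∧ c w ∈ A} ∪ {w : Ω | w ∈ S N ∧ c w ∈ B} := by
    rintro w ⟨hw, hw' | hw'⟩
    · exact Or.inl ⟨hw, hw'⟩
    · exact Or.inr ⟨hw, hw'⟩
  have hf : ∀ P : Ω → Prop, {w : Ω | w ∈ S N ∧ P w}.Finite := fun P =>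
    (S N).finite_toSet.subset fun w hw => hw.1
  have h5 := (Set.ncard_le_ncard hsub ((hf _).union (hf _))).trans (Set.ncard_union_le _ _)
  have h6 : (({w : Ω | w ∈ S N ∧ c w ∈ A ∪ B}.ncard : ℕ) : ℝ) ≤
      (({w : Ω | w ∈ S N ∧ c w ∈ A}.ncard : ℕ) : ℝ) +
      (({w : Ω | w ∈ S N ∧ c w ∈ B}.ncard : ℕ) : ℝ) := by exact_mod_cast h5
  linarith

theorem rare_biUnion' {J : Type} (F : Finset J) {B : J → Set (ι → ℤ)}
    (h : ∀ j ∈ F, Rare S c (B j)) : Rare S c (⋃ j ∈ F, B j) := by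
  classical
  induction F using Finset.induction_on with
  | empty => simpa using (rare_empty' (S := S) (c := c))
  | insert a s ha ih =>
    rw [Finset.set_biUnion_insert]
    exact rare_union' (h a (Finset.mem_insert_self _ _))
      (ih fun j hj => h j (Finset.mem_insert_of_mem hj))

end

end Pool.Agent.Run7.h316.UN
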