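import Pool.Agent.Run7.h316.UN.Def
import Pool.Agent.N24.RW.Clo

/-!
# The values of linear forms at the vectors of units
-/

set_option autoImplicit false

namespace Pool.Agent.Run7.h316.UN

open Pool.Agent.Run7.h316.EQ

section

variable {ι : Type} [Fintype ι]

/-- at least two of the coefficients are different from zero -/
def TwoNonzero {ι : Type} (lam : ι → ℤ) : Prop := ∃ l l' : ι, l ≠ l' ∧ lam l ≠ 0 ∧ lam l' ≠ 0

omit [Fintype ι] in
theorem TwoNonzero.ne {lam : ι → ℤ} (h : TwoNonzero lam) : lam ≠ 0 := by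
  obtain ⟨l, _, _, hl, _⟩ := h
  rintro rfl
  exact hl rfl

theorem unit_of_large {p : ℕ} (hp : p.Prime) {a : ℤ} (ha : a ≠ 0) (h : a.natAbs < p) (k : ℕ) :
    IsUnit ((a : ℤ) : ZMod (p ^ k)) := by
  rw [ZMod.coe_int_isUnit_iff_isCoprime, Nat.cast_pow]
  apply IsCoprime.pow_left
  rw [Int.isCoprime_iff_gcd_eq_one]
  have h7 : Nat.Coprime p a.natAbs := by
    rw [Nat.Prime.coprime_iff_not_dvd hp]
    intro h8
    have := Nat.le_of_dvd (Int.natAbs_pos.2 ha) h8
    omega
  exact h7

open Classical in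
/-- averaging over the units in one coordinate -/
theorem avg {q : ℕ} (hq : 0 < q) (l : ι) (A E : Set (ι → ZMod q)) (hA : A ⊆ V ι q) (m : ℕ)
    (h : ∀ x ∈ A, m ≤ {u : (ZMod q)ˣ | Function.update x l (u : ZMod q) ∈ E}.ncard) :
    A.ncard * m ≤ q.totient * E.ncard := by
  have : NeZero q := ⟨hq.ne'⟩
  have hAf : A.Finite := Set.toFinite _
  have hEf : E.Finite := Set.toFinite _
  set P : Finset (Σ _ : ι → ZMod q, (ZMod q)ˣ) := hAf.toFinset.sigma
    (fun x => Finset.univ.filter fun u => Function.update x l (u : ZMod q) ∈ E) with hP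
  have h1 : A.ncard * m ≤ P.card := by
    rw [hP, Finset.card_sigma, Set.ncard_eq_toFinset_card A hAf, ← smul_eq_mul,
      ← Finset.sum_const]
    refine Finset.sum_le_sum fun x hx => ?_
    have h2 := h x ((Set.Finite.mem_toFinset _).1 hx)
    refine h2.trans (le_of_eq ?_)
    rw [← Set.ncard_coe_finset]
    congr 1
    ext u
    simp
  have h2 : P.card ≤ (hEf.toFinset ×ˢ (Finset.univ : Finset (ZMod q)ˣ)).card := by
    have hu : ∀ x ∈ A, IsUnit (x l) := fun x hx => hA hx l
    refine Finset.card_le_card_of_injOn (fun z => (Function.update z.1 l (z.2 : ZMod q),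
      if hx : IsUnit (z.1 l) then hx.unit else 1)) ?_ ?_
    · rintro ⟨x, u⟩ hz
      rw [Finset.mem_coe, hP, Finset.mem_sigma, Finset.mem_filter] at hz
      rw [Finset.mem_coe, Finset.mem_product]
      exact ⟨(Set.Finite.mem_toFinset _).2 hz.2.2, Finset.mem_univ _⟩
    · rintro ⟨x, u⟩ hz ⟨y, v⟩ hz' hzz
      rw [Finset.mem_coe, hP, Finset.mem_sigma, Finset.mem_filter, Set.Finite.mem_toFinset] at hz hz'
      simp only [Prod.mk.injEq] at hzz
      obtain ⟨e1, e2⟩ := hzz
      have hx := hu x hz.1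
      have hy := hu y hz'.1
      rw [dif_pos hx, dif_pos hy] at e2
      have e3 : x l = y l := by
        have := congrArg (fun t : (ZMod q)ˣ => (t : ZMod q)) e2
        simpa using this
      have e4 : u = v := by
        have := congrFun e1 l
        rw [Function.update_self, Function.update_self] at this
        exact Units.ext this
      have e5 : x = y := by
        funext i
        by_cases hi : i = l
        · rw [hi, e3]
        · have := congrFun e1 i
          rwa [Function.update_of_ne hi, Function.update_of_ne hi] at this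
      rw [e4, e5]
  rw [Finset.card_product, Finset.card_univ, ZMod.card_units_eq_totient,
    ← Set.ncard_eq_toFinset_card E hEf] at h2
  rw [mul_comm q.totient]
  exact h1.trans h2

/-- the reduction modulo `p` -/
noncomputable def rd (p k : ℕ) (hk : 1 ≤ k) : ZMod (p ^ k) →+* ZMod p :=
  ZMod.castHom (dvd_pow_self p (by omega : k ≠ 0)) (ZMod p)

theorem isUnit_iff {p k : ℕ} (hp : p.Prime) (hk : 1 ≤ k) (a : ZMod (p ^ k)) :
    IsUnit a ↔ rd p k hk a ≠ 0 := by
  have : Fact p.Prime := ⟨hp⟩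
  have : NeZero (p ^ k) := ⟨(Nat.pow_pos hp.pos).ne'⟩
  obtain ⟨n, rfl⟩ : ∃ n : ℕ, (n : ZMod (p ^ k)) = a := ⟨a.val, ZMod.natCast_zmod_val a⟩
  rw [ZMod.isUnit_iff_coprime, map_natCast, Ne, ZMod.natCast_eq_zero_iff,
    Nat.coprime_pow_right_iff (by omega), Nat.coprime_comm, hp.coprime_iff_not_dvd]

theorem fiber_card {p k : ℕ} (hp : p.Prime) (hk : 1 ≤ k) (t : ZMod p) :
    {a : ZMod (p ^ k) | rd p k hk a = t}.ncard = p ^ (k - 1) := by
  have : NeZero (p ^ k) := ⟨(Nat.pow_pos hp.pos).ne'⟩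
  have : NeZero p := ⟨hp.ne_zero⟩
  have h1 := Pool.Agent.N24.RW.Clo.ncard_preimage ((rd p k hk : ZMod (p ^ k) →+* ZMod p).toAddMonoidHom)
    (ZMod.ringHom_surjective _) {t}
  rw [Set.ncard_singleton, one_mul, Nat.card_eq_fintype_card, Nat.card_eq_fintype_card, ZMod.card,
    ZMod.card] at h1
  have h2 : p ^ k = p ^ (k - 1) * p := by
    rw [← pow_succ, Nat.sub_add_cancel hk]
  have h3 := Nat.eq_of_mul_eq_mul_right hp.pos (h1.trans h2)
  exact h3

open Classical in
/-- linear forms with two coefficients which are units -/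
theorem lin_count {p k : ℕ} (hp : p.Prime) (hp3 : 3 ≤ p) (hk : 1 ≤ k) (lam : ι → ZMod (p ^ k))
    (l l' : ι) (hne : l ≠ l') (hl : IsUnit (lam l)) (hl' : IsUnit (lam l'))
    (Z : Set (ZMod (p ^ k))) (t : ZMod p) (hZ : ∀ z ∈ Z, rd p k hk z = t) :
    Z.ncard * (p ^ k).totient ^ Fintype.card ι ≤
      2 * ((p ^ k).totient * {x : ι → ZMod (p ^ k) | x ∈ V ι (p ^ k) ∧
        ∑ i, lam i * x i ∈ Z}.ncard) := by
  have hq : 0 < p ^ k := Nat.pow_pos hp.pos
  have : NeZero (p ^ k) := ⟨hq.ne'⟩
  have hFp : Fact p.Prime := ⟨hp⟩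
  have hφ : (p ^ k).totient = p ^ (k - 1) * (p - 1) := Nat.totient_prime_pow hp hk
  set E : Set (ι → ZMod (p ^ k)) := {x | x ∈ V ι (p ^ k) ∧ ∑ i, lam i * x i ∈ Z} with hE
  set s : (ι → ZMod (p ^ k)) → ZMod (p ^ k) := fun x => ∑ i ∈ Finset.univ.erase l, lam i * x i
    with hs
  set A : Set (ι → ZMod (p ^ k)) := {x | x ∈ V ι (p ^ k) ∧ rd p k hk (s x) ≠ t} with hA
  have hVu : ∀ (x : ι → ZMod (p ^ k)) (j : ι) (u : (ZMod (p ^ k))ˣ), x ∈ V ι (p ^ k) →
      Function.update x j (u : ZMod (p ^ k)) ∈ V ι (p ^ k) := by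
    intro x j u hx i
    by_cases hi : i = j
    · rw [hi, Function.update_self]
      exact u.isUnit
    · rw [Function.update_of_ne hi]
      exact hx i
  -- the first step
  have h1 : A.ncard * Z.ncard ≤ (p ^ k).totient * E.ncard := by
    refine avg hq l A E (fun x hx => hx.1) _ ?_
    rintro x ⟨hxV, hxs⟩
    obtain ⟨ul, hul⟩ := hl
    have hun : ∀ z ∈ Z, IsUnit (((ul⁻¹ : (ZMod (p ^ k))ˣ) : ZMod (p ^ k)) * (z - s x)) := by
      intro z hz
      refine (ul⁻¹).isUnit.mul ?_
      rw [isUnit_iff hp hk, map_sub, hZ z hz, sub_ne_zero]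
      exact fun h => hxs h.symm
    refine Set.ncard_le_ncard_of_injOn (fun z => if hz : z ∈ Z then (hun z hz).unit else 1) ?_ ?_
      (Set.toFinite _)
    · intro z hz
      simp only [dif_pos hz]
      refine ⟨hVu x l _ hxV, ?_⟩
      rw [← Finset.add_sum_erase _ _ (Finset.mem_univ l), Function.update_self]
      have h2 : ∑ i ∈ Finset.univ.erase l, lam i * Function.update x l
          (((hun z hz).unit : (ZMod (p ^ k))ˣ) : ZMod (p ^ k)) i = s x := by
        refine Finset.sum_congr rfl fun i hi => ?_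
        rw [Function.update_of_ne (Finset.ne_of_mem_erase hi)]
      rw [h2, IsUnit.unit_spec, ← hul, ← mul_assoc, Units.mul_inv, one_mul, sub_add_cancel]
      exact hz
    · intro z hz z' hz' hzz
      simp only [dif_pos hz, dif_pos hz'] at hzz
      have h2 := congrArg (fun t : (ZMod (p ^ k))ˣ => (t : ZMod (p ^ k))) hzz
      simp only [IsUnit.unit_spec] at h2
      have h3 := (Units.mul_right_inj ul⁻¹).1 h2
      exact sub_left_inj.1 h3
  -- the second step
  have h2 : (V ι (p ^ k)).ncard * (p ^ (k - 1) * (p - 2)) ≤ (p ^ k).totient * A.ncard := by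
    refine avg hq l' (V ι (p ^ k)) A subset_rfl _ ?_
    intro x hx
    set s' : ZMod (p ^ k) := ∑ i ∈ (Finset.univ.erase l).erase l', lam i * x i with hs'
    have hupd : ∀ u : (ZMod (p ^ k))ˣ, s (Function.update x l' (u : ZMod (p ^ k))) =
        lam l' * u + s' := by
      intro u
      simp only [hs]
      rw [← Finset.add_sum_erase _ _ (Finset.mem_erase.2 ⟨hne.symm, Finset.mem_univ l'⟩),
        Function.update_self]
      congr 1
      refine Finset.sum_congr rfl fun i hi => ?_
      rw [Function.update_of_ne (Finset.ne_of_mem_erase hi)]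
    have hcomp : ({u : (ZMod (p ^ k))ˣ | Function.update x l' (u : ZMod (p ^ k)) ∈ A}ᶜ).ncard ≤
        p ^ (k - 1) := by
      have hlr : rd p k hk (lam l') ≠ 0 := (isUnit_iff hp hk _).1 hl'
      rw [← fiber_card hp hk ((rd p k hk (lam l'))⁻¹ * (t - rd p k hk s'))]
      refine Set.ncard_le_ncard_of_injOn (fun u => (u : ZMod (p ^ k))) ?_ ?_ (Set.toFinite _)
      · intro u hu
        have h3 : ¬ (Function.update x l' (u : ZMod (p ^ k)) ∈ A) := hu
        have h4 : rd p k hk (s (Function.update x l' (u : ZMod (p ^ k)))) = t := by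
          by_contra h5
          exact h3 ⟨hVu x l' u hx, h5⟩
        rw [hupd, map_add, map_mul] at h4
        show rd p k hk (u : ZMod (p ^ k)) = _
        rw [← h4, add_sub_cancel_right, ← mul_assoc, inv_mul_cancel₀ hlr, one_mul]
      · intro u _ v _ huv
        exact Units.ext huv
    have htot := Set.ncard_add_ncard_compl
      {u : (ZMod (p ^ k))ˣ | Function.update x l' (u : ZMod (p ^ k)) ∈ A}
    rw [Nat.card_eq_fintype_card, ZMod.card_units_eq_totient, hφ] at htot
    have h5 : p ^ (k - 1) * (p - 1) = p ^ (k - 1) * (p - 2) + p ^ (k - 1) := by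
      rw [← Nat.mul_succ]
      congr 1
      omega
    omega
  rw [V_card _ hq] at h2
  -- conclusion
  have hpk : 0 < p ^ (k - 1) := Nat.pow_pos hp.pos
  have h3 : (p ^ k).totient ^ Fintype.card ι ≤ 2 * A.ncard := by
    have h4 : (p ^ k).totient ^ Fintype.card ι * (p - 2) ≤ (p - 1) * A.ncard := by
      rw [hφ] at h2 ⊢
      have h5 : p ^ (k - 1) * ((p ^ (k - 1) * (p - 1)) ^ Fintype.card ι * (p - 2)) ≤
          p ^ (k - 1) * ((p - 1) * A.ncard) := by
        calc p ^ (k - 1) * ((p ^ (k - 1) * (p - 1)) ^ Fintype.card ι * (p - 2))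
            = (p ^ (k - 1) * (p - 1)) ^ Fintype.card ι * (p ^ (k - 1) * (p - 2)) := by ring
          _ ≤ p ^ (k - 1) * (p - 1) * A.ncard := h2
          _ = _ := by ring
      exact Nat.le_of_mul_le_mul_left h5 hpk
    have h5 : (p ^ k).totient ^ Fintype.card ι * (p - 2) ≤ (2 * A.ncard) * (p - 2) := by
      refine h4.trans ?_
      have h6 : p - 1 ≤ 2 * (p - 2) := by omega
      calc (p - 1) * A.ncard ≤ (2 * (p - 2)) * A.ncard := Nat.mul_le_mul_right _ h6
        _ = (2 * A.ncard) * (p - 2) := by ring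
    exact Nat.le_of_mul_le_mul_right h5 (by omega)
  calc Z.ncard * (p ^ k).totient ^ Fintype.card ι ≤ Z.ncard * (2 * A.ncard) :=
        Nat.mul_le_mul_left _ h3
    _ = 2 * (A.ncard * Z.ncard) := by ring
    _ ≤ 2 * ((p ^ k).totient * E.ncard) := Nat.mul_le_mul_left _ h1

open Classical in
/-- linear forms with one coefficient -/
theorem lin_single {q : ℕ} (hq : 0 < q) (lam : ι → ZMod q)
    (l : ι) (hl : IsUnit (lam l)) (h0 : ∀ i, i ≠ l → lam i = 0) (Z : Set (ZMod q))
    (hZ : ∀ z ∈ Z, IsUnit z) :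
    Z.ncard * q.totient ^ Fintype.card ι ≤
      q.totient * {x : ι → ZMod q | x ∈ V ι q ∧ ∑ i, lam i * x i ∈ Z}.ncard := by
  have : NeZero q := ⟨hq.ne'⟩
  rw [← V_card (ι := ι) q hq, mul_comm Z.ncard]
  refine avg hq l (V ι q) _ subset_rfl _ ?_
  intro x hx
  obtain ⟨ul, hul⟩ := hl
  refine Set.ncard_le_ncard_of_injOn (fun z => if hz : z ∈ Z then ul⁻¹ * (hZ z hz).unit else 1) ?_ ?_
    (Set.toFinite _)
  · intro z hz
    simp only [dif_pos hz]
    refine ⟨fun i => ?_, ?_⟩
    · by_cases hi : i = l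
      · rw [hi, Function.update_self]
        exact Units.isUnit _
      · rw [Function.update_of_ne hi]
        exact hx i
    · rw [Finset.sum_eq_single l (fun i _ hi => by rw [h0 i hi, zero_mul])
        (fun h => absurd (Finset.mem_univ l) h), Function.update_self, Units.val_mul,
        IsUnit.unit_spec, ← hul, ← mul_assoc, Units.mul_inv, one_mul]
      exact hz
  · intro z hz z' hz' hzz
    simp only [dif_pos hz, dif_pos hz'] at hzz
    have h2 := mul_left_cancel hzz
    have h3 := congrArg (fun t : (ZMod q)ˣ => (t : ZMod q)) h2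
    simpa using h3

end

end Pool.Agent.Run7.h316.UN
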