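import Pool.Agent.Run7.h316.UN.Lin
import Pool.Agent.Run7.h316.UN.Rob
import Pool.Agent.N676.OR.Pro

/-!
# Primes of a given set which divide the value of a linear form at a vector of units exactly once

After `Pool.Agent.N676.OR.pro_hit` (helper676), which is the statement for all vectors. For the vectors of
units two of the coefficients of the linear form must be different from zero.
-/

set_option autoImplicit false

namespace Pool.Agent.Run7.h316.UN

open Pool.Agent.Run7.h316.EQ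
open Pool.Agent.N24.RW (ProNull)
open Pool.Agent.N676.OR (Hit Big lin exac exac_card pro_hits)

section

variable {ι : Type} [Fintype ι]

theorem unit_hit {P : Set ℕ} (hP : Big P) {lam : ι → ℤ} (hlam : TwoNonzero lam) :
    UnitNull {c : ι → ℤ | ¬ Hit P (lin lam c)} := by
  classical
  obtain ⟨l, l', hne, hl, hl'⟩ := hlam
  set w : ℕ → ℝ := fun p => if p ∈ P then 1 / (4 * (p : ℝ)) else 0 with hw
  have hw0 : ∀ p, 0 ≤ w p := by
    intro p
    simp only [hw]
    split_ifs <;> positivity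
  have hns : ¬ Summable (fun p : ℕ => if p.Prime then w p else 0) := by
    intro hsum
    have h1 := hsum.mul_left 4
    have h2 : Set.indicator {p : ℕ | p.Prime ∧ p ∈ P} (fun p : ℕ => 1 / (p : ℝ)) =
        fun p : ℕ => 4 * (if p.Prime then w p else 0) := by
      funext p
      by_cases h : p.Prime
      · by_cases h' : p ∈ P
        · have h3 : (p : ℝ) ≠ 0 := by exact_mod_cast h.ne_zero
          rw [Set.indicator_of_mem (show p ∈ {p : ℕ | p.Prime ∧ p ∈ P} from ⟨h, h'⟩), if_pos h, hw]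
          simp only [h', if_true]
          field_simp
        · rw [Set.indicator_of_notMem (show p ∉ {p : ℕ | p.Prime ∧ p ∈ P} from fun h3 => h' h3.2),
            if_pos h, hw]
          simp [h']
      · rw [Set.indicator_of_notMem (show p ∉ {p : ℕ | p.Prime ∧ p ∈ P} from fun h3 => h h3.1),
          if_neg h, mul_zero]
    apply hP
    rw [h2]
    exact h1
  refine unitNull_of_tests 2 w hw0 hns (max ((lam l).natAbs + (lam l').natAbs) 3)
    fun p hp hpD => ?_
  have hpl : (lam l).natAbs + (lam l').natAbs < p := (le_max_left _ _).trans_lt hpD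
  have hp3 : 3 < p := (le_max_right _ _).trans_lt hpD
  by_cases hpP : p ∈ P
  · have hq : 0 < p ^ 2 := Nat.pow_pos hp.pos
    have : NeZero (p ^ 2) := ⟨hq.ne'⟩
    refine ⟨{x : ι → ZMod (p ^ 2) | x ∈ V ι (p ^ 2) ∧
      ∑ i, ((lam i : ℤ) : ZMod (p ^ 2)) * x i ∈ exac p}, fun x hx => hx.1, ?_, ?_⟩
    · have h1 := lin_count hp hp3.le (by norm_num : 1 ≤ 2) (fun i => ((lam i : ℤ) : ZMod (p ^ 2)))
        l l' hne (unit_of_large hp hl (by omega) 2) (unit_of_large hp hl' (by omega) 2)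
        (exac p) 0 (by
          intro z hz
          obtain ⟨c, hc⟩ := hz.1
          rw [← ZMod.natCast_zmod_val z, map_natCast, hc, Nat.cast_mul, CharP.cast_eq_zero,
            zero_mul])
      have h2 := exac_card hp.two_le
      have hp0 : (0 : ℝ) < p := by exact_mod_cast hp.pos
      have h3 : (((exac p).ncard : ℕ) : ℝ) * ((p ^ 2).totient : ℝ) ^ Fintype.card ι ≤
          2 * (((p ^ 2).totient : ℝ) * (({x : ι → ZMod (p ^ 2) | x ∈ V ι (p ^ 2) ∧
            ∑ i, ((lam i : ℤ) : ZMod (p ^ 2)) * x i ∈ exac p}.ncard : ℕ) : ℝ)) := by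
        exact_mod_cast h1
      have h4 : ((p ^ 2).totient : ℝ) ≤ (p : ℝ) ^ 2 := by
        exact_mod_cast Nat.totient_le (p ^ 2)
      set n : ℝ := (({x : ι → ZMod (p ^ 2) | x ∈ V ι (p ^ 2) ∧
        ∑ i, ((lam i : ℤ) : ZMod (p ^ 2)) * x i ∈ exac p}.ncard : ℕ) : ℝ) with hn
      have hn0 : 0 ≤ n := Nat.cast_nonneg _
      set T : ℝ := ((p ^ 2).totient : ℝ) ^ Fintype.card ι with hT
      have hT0 : 0 ≤ T := by positivity
      have h5 : (p : ℝ) / 2 * T ≤ 2 * ((p : ℝ) ^ 2 * n) := by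
        refine (mul_le_mul_of_nonneg_right h2 hT0).trans (h3.trans ?_)
        have := mul_le_mul_of_nonneg_right h4 hn0
        linarith
      have h6 : w p = 1 / (4 * (p : ℝ)) := by simp only [hw, hpP, if_true]
      rw [h6, div_mul_eq_mul_div, one_mul, div_le_iff₀ (by positivity)]
      have h7 : (p : ℝ) * T ≤ (p : ℝ) * (n * (4 * p)) := by
        calc (p : ℝ) * T = 2 * ((p : ℝ) / 2 * T) := by ring
          _ ≤ 2 * (2 * ((p : ℝ) ^ 2 * n)) := by linarith
          _ = _ := by ring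
      exact le_of_mul_le_mul_left h7 hp0
    · rintro c hc ⟨-, hmem⟩
      apply hc
      have h2 : ((lin lam c : ℤ) : ZMod (p ^ 2)) ∈ exac p := by
        have h1 : ((lin lam c : ℤ) : ZMod (p ^ 2)) =
            ∑ i, ((lam i : ℤ) : ZMod (p ^ 2)) * (c i : ZMod (p ^ 2)) := by
          unfold lin
          push_cast
          rfl
        rw [h1]
        exact hmem
      exact ⟨p, hpP, hp, (Pool.Agent.N24.RW.one_dvd p hp.one_lt.le _).1 h2.1,
        (Pool.Agent.N24.RW.one_val_ne p hp.one_lt.le _).1 h2.2⟩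
  · refine ⟨∅, Set.empty_subset _, ?_, fun c _ hmem => hmem⟩
    have h6 : w p = 0 := by simp only [hw, hpP, if_false]
    rw [h6, zero_mul]
    exact Nat.cast_nonneg _

/-- finitely many sets of primes -/
theorem unit_hits {PP : Set (Set ℕ)} (hf : PP.Finite) (hP : ∀ P ∈ PP, Big P) {lam : ι → ℤ}
    (hlam : TwoNonzero lam) : UnitNull {c : ι → ℤ | ¬ ∀ P ∈ PP, Hit P (lin lam c)} := by
  have h1 := UnitNull.biUnion (ι := ι) hf.toFinset
    (B := fun P => {c : ι → ℤ | ¬ Hit P (lin lam c)})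
    (fun P hP' => unit_hit (hP P (hf.mem_toFinset.1 hP')) hlam)
  refine UnitNull.mono ?_ h1
  intro c hc
  simp only [Set.mem_ofPred_eq, not_forall] at hc
  obtain ⟨P, hP', hc⟩ := hc
  rw [Set.mem_iUnion₂]
  exact ⟨P, hf.mem_toFinset.2 hP', hc⟩

/-- Countably many properties of integers, each of which follows from finitely many conditions: a prime of a
given set, whose sum of reciprocals diverges, divides the integer exactly once. -/
theorem robust_of_hits {𝔇 : Type} [Countable 𝔇] (G : 𝔇 → ℤ → Prop)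
    (hG : ∀ D, ∃ PP : Set (Set ℕ), PP.Finite ∧ (∀ P ∈ PP, Big P) ∧
      ∀ a : ℤ, (∀ P ∈ PP, Hit P a) → G D a) [DecidableEq ι] [Nonempty ι] :
    SpreadRobust (ι := ι) (fun _ S c => ∀ lam : ι → ℤ, lam ≠ 0 → ∀ D,
      Rare S c {x | ¬ G D (∑ i, lam i * x i)}) ∧
    UnitRobust (ι := ι) (fun _ S c => ∀ lam : ι → ℤ, TwoNonzero lam → ∀ D,
      Rare S c {x | ¬ G D (∑ i, lam i * x i)}) := by
  choose PP hf hP hh using hG
  have hsub : ∀ (lam : ι → ℤ) (D : 𝔇), {x : ι → ℤ | ¬ G D (∑ i, lam i * x i)} ⊆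
      {c : ι → ℤ | ¬ ∀ P ∈ PP D, Hit P (lin lam c)} := by
    intro lam D x hx hc
    exact hx (hh D _ hc)
  constructor
  · refine spreadRobust_of (I := {lam : ι → ℤ // lam ≠ 0} × 𝔇)
      (fun i => {x : ι → ℤ | ¬ G i.2 (∑ j, i.1.1 j * x j)}) (fun i => ?_) _ ?_
    · exact Pool.Agent.N24.RW.Clo.mono (hsub i.1.1 i.2) (pro_hits (hf i.2) (hP i.2) i.1.2)
    · intro Ω S c h lam hlam D
      exact h (⟨lam, hlam⟩, D)
  · refine unitRobust_of (I := {lam : ι → ℤ // TwoNonzero lam} × 𝔇)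
      (fun i => {x : ι → ℤ | ¬ G i.2 (∑ j, i.1.1 j * x j)}) (fun i => ?_) _ ?_
    · exact UnitNull.mono (hsub i.1.1 i.2) (unit_hits (hf i.2) (hP i.2) i.1.2)
    · intro Ω S c h lam hlam D
      exact h (⟨lam, hlam⟩, D)

end

end Pool.Agent.Run7.h316.UN
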