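import Pool.Agent.Run7.h316.UN.Lin
import Pool.Agent.Run7.h316.UN.Rob
import Pool.Agent.N676.OR.Pro

/-!
# Primes which divide the value of one linear form at a vector (of units), but not the value of another one
-/

set_option autoImplicit false

namespace Pool.Agent.Run7.h316.UN

open Pool.Agent.Run7.h316.EQ
open Pool.Agent.N24.RW (ProNull)

section

variable {ι : Type} [Fintype ι]

/-- the two linear forms are not proportional -/
def Indep {ι : Type} (lam mu : ι → ℤ) : Prop :=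
  ∃ i j : ι, lam i * mu j - lam j * mu i ≠ 0

/-- no prime `p > D` divides `λ(c)`, but not `μ(c)` -/
def Bad2 (lam mu : ι → ℤ) (D : ℕ) : Set (ι → ℤ) :=
  {c | ¬ ∃ p : ℕ, p.Prime ∧ D < p ∧ (p : ℤ) ∣ ∑ i, lam i * c i ∧ ¬ (p : ℤ) ∣ ∑ i, mu i * c i}

/-- the values of both linear forms modulo `q` -/
def pairHom (q : ℕ) (lam mu : ι → ℤ) : (ι → ZMod q) →+ ZMod q × ZMod q where
  toFun x := (∑ i, ((lam i : ℤ) : ZMod q) * x i, ∑ i, ((mu i : ℤ) : ZMod q) * x i)
  map_zero' := by simp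
  map_add' x y := by
    simp only [Pi.add_apply, mul_add, Finset.sum_add_distrib, Prod.mk_add_mk]

theorem pairHom_surj [DecidableEq ι] {q : ℕ} {lam mu : ι → ℤ} {i j : ι}
    (h : IsUnit ((lam i * mu j - lam j * mu i : ℤ) : ZMod q)) :
    Function.Surjective (pairHom q lam mu) := by
  obtain ⟨u, hu⟩ := h
  push_cast at hu
  have h1 : (u : ZMod q) * ((u⁻¹ : (ZMod q)ˣ) : ZMod q) = 1 := Units.mul_inv u
  have hsum : ∀ (f : ι → ZMod q) (s t : ZMod q),
      ∑ k, f k * (Pi.single i s + Pi.single j t : ι → ZMod q) k = f i * s + f j * t := by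
    intro f s t
    simp only [Pi.add_apply, mul_add, Finset.sum_add_distrib, Pi.single_apply, mul_ite, mul_zero,
      Finset.sum_ite_eq', Finset.mem_univ, if_true]
  rintro ⟨a, b⟩
  refine ⟨Pi.single i ((a * mu j - b * lam j) * ((u⁻¹ : (ZMod q)ˣ) : ZMod q)) +
    Pi.single j ((b * lam i - a * mu i) * ((u⁻¹ : (ZMod q)ˣ) : ZMod q)), ?_⟩
  apply Prod.ext
  · change ∑ k, ((lam k : ℤ) : ZMod q) * _ = a
    rw [hsum]
    linear_combination a * h1 - a * ((u⁻¹ : (ZMod q)ˣ) : ZMod q) * hu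
  · change ∑ k, ((mu k : ℤ) : ZMod q) * _ = b
    rw [hsum]
    linear_combination b * h1 - b * ((u⁻¹ : (ZMod q)ˣ) : ZMod q) * hu

theorem pairHom_count {q : ℕ} [NeZero q] {lam mu : ι → ℤ}
    (h : Function.Surjective (pairHom q lam mu)) (T : Set (ZMod q × ZMod q)) :
    ((pairHom q lam mu) ⁻¹' T).ncard * q ^ 2 = T.ncard * q ^ Fintype.card ι := by
  have h1 := Pool.Agent.N24.RW.Clo.ncard_preimage (pairHom q lam mu) h T
  rw [Pool.Agent.N24.RW.Clo.card_pi, Nat.card_prod, Nat.card_eq_fintype_card, ZMod.card] at h1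
  rw [sq]
  exact h1

theorem unit_of_large' {p : ℕ} (hp : p.Prime) {a : ℤ} (ha : a ≠ 0) (h : a.natAbs < p) :
    IsUnit ((a : ℤ) : ZMod p) := by
  rw [ZMod.coe_int_isUnit_iff_isCoprime, Int.isCoprime_iff_gcd_eq_one]
  have h7 : Nat.Coprime p a.natAbs := by
    rw [Nat.Prime.coprime_iff_not_dvd hp]
    intro h8
    have := Nat.le_of_dvd (Int.natAbs_pos.2 ha) h8
    omega
  exact h7

theorem not_summable_half (C : ℝ) (hC : 0 < C) :
    ¬ Summable (fun p : ℕ => if p.Prime then 1 / (C * (p : ℝ)) else 0) := by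
  intro hsum
  have h1 := hsum.mul_left C
  apply not_summable_one_div_on_primes
  refine h1.congr fun p => ?_
  by_cases h : p.Prime
  · have h3 : (p : ℝ) ≠ 0 := by exact_mod_cast h.ne_zero
    rw [if_pos h, Set.indicator_of_mem (show p ∈ {p : ℕ | p.Prime} from h)]
    field_simp
  · rw [if_neg h, Set.indicator_of_notMem (show p ∉ {p : ℕ | p.Prime} from h), mul_zero]

theorem proNull_bad2 {lam mu : ι → ℤ} (h : Indep lam mu) (D : ℕ) : ProNull (Bad2 lam mu D) := by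
  classical
  obtain ⟨i, j, hij⟩ := h
  have h := Pool.Agent.N24.RW.t_CRIT ι (fun p => p) (fun p hp => hp.pos)
    (fun p p' hp hp' hne => (Nat.coprime_primes hp hp').mpr hne)
    (fun p => (pairHom p lam mu) ⁻¹' {y | y.1 = 0 ∧ y.2 ≠ 0})
    (max D (lam i * mu j - lam j * mu i).natAbs) (fun p => 1 / (2 * (p : ℝ)))
    (fun p => by positivity) (not_summable_half 2 (by norm_num)) (fun p hp hDp => by
      have hF : Fact p.Prime := ⟨hp⟩
      have : NeZero p := ⟨hp.ne_zero⟩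
      have h1 : (lam i * mu j - lam j * mu i).natAbs < p := (le_max_right _ _).trans_lt hDp
      have h2 := pairHom_count (pairHom_surj (lam := lam) (mu := mu) (unit_of_large' hp hij h1))
        {y | y.1 = 0 ∧ y.2 ≠ 0}
      have h3 : ({y : ZMod p × ZMod p | y.1 = 0 ∧ y.2 ≠ 0}).ncard = p - 1 := by
        have h4 : {y : ZMod p × ZMod p | y.1 = 0 ∧ y.2 ≠ 0} = {0} ×ˢ {(0 : ZMod p)}ᶜ := by
          ext y
          simp
        rw [h4, Set.ncard_prod, Set.ncard_singleton, one_mul]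
        have h5 := Set.ncard_add_ncard_compl ({(0 : ZMod p)} : Set (ZMod p))
        rw [Set.ncard_singleton, Nat.card_eq_fintype_card, ZMod.card] at h5
        omega
      rw [h3] at h2
      have hp2 := hp.two_le
      have hp0 : (0 : ℝ) < p := by exact_mod_cast hp.pos
      have h6 : ((((pairHom p lam mu) ⁻¹' {y | y.1 = 0 ∧ y.2 ≠ 0}).ncard : ℕ) : ℝ) * (p : ℝ) ^ 2 =
          ((p : ℝ) - 1) * (p : ℝ) ^ Fintype.card ι := by
        have h7 : (((p - 1 : ℕ) : ℕ) : ℝ) = (p : ℝ) - 1 := by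
          rw [Nat.cast_sub hp.one_lt.le, Nat.cast_one]
        rw [← h7]
        exact_mod_cast h2
      have h8 : (0 : ℝ) ≤ (p : ℝ) ^ Fintype.card ι := by positivity
      have h9 : (p : ℝ) / 2 * (p : ℝ) ^ Fintype.card ι ≤
          ((p : ℝ) - 1) * (p : ℝ) ^ Fintype.card ι := by
        refine mul_le_mul_of_nonneg_right ?_ h8
        have : (2 : ℝ) ≤ p := by exact_mod_cast hp2
        linarith
      rw [← h6] at h9
      have h10 : 1 / (2 * (p : ℝ)) * (p : ℝ) ^ Fintype.card ι * (p : ℝ) ^ 2 ≤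
          ((((pairHom p lam mu) ⁻¹' {y | y.1 = 0 ∧ y.2 ≠ 0}).ncard : ℕ) : ℝ) * (p : ℝ) ^ 2 := by
        refine le_trans (le_of_eq ?_) h9
        field_simp
      exact le_of_mul_le_mul_right h10 (by positivity))
  refine Pool.Agent.N24.RW.Clo.mono (fun c hc => ?_) h
  intro p hp hDp hmem
  apply hc
  obtain ⟨h1, h2⟩ := hmem
  refine ⟨p, hp, (le_max_left _ _).trans_lt hDp, ?_, fun h3 => h2 ?_⟩
  · rw [← ZMod.intCast_zmod_eq_zero_iff_dvd]
    push_cast
    exact h1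
  · have h4 := (ZMod.intCast_zmod_eq_zero_iff_dvd _ p).2 h3
    push_cast at h4
    exact h4

theorem unitNull_bad2 {lam mu : ι → ℤ} (h2 : TwoNonzero lam) (h : Indep lam mu) (D : ℕ) :
    UnitNull (Bad2 lam mu D) := by
  classical
  obtain ⟨i, j, hij⟩ := h
  obtain ⟨l, l', hne, hl, hl'⟩ := h2
  refine unitNull_of_tests 1 (fun p => 1 / (4 * (p : ℝ))) (fun p => by positivity)
    (not_summable_half 4 (by norm_num))
    (max (max D (lam i * mu j - lam j * mu i).natAbs)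
      (max ((lam l).natAbs + (lam l').natAbs) (2 ^ (Fintype.card ι + 2)))) fun p hp hDp => ?_
  have hD1 : D < p := ((le_max_left _ _).trans (le_max_left _ _)).trans_lt hDp
  have hD2 : (lam i * mu j - lam j * mu i).natAbs < p :=
    ((le_max_right _ _).trans (le_max_left _ _)).trans_lt hDp
  have hD3 : (lam l).natAbs + (lam l').natAbs < p :=
    ((le_max_left _ _).trans (le_max_right _ _)).trans_lt hDp
  have hD4 : 2 ^ (Fintype.card ι + 2) < p :=
    ((le_max_right _ _).trans (le_max_right _ _)).trans_lt hDp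
  have hp3 : 3 ≤ p := by
    have h4 : 2 ^ 2 ≤ 2 ^ (Fintype.card ι + 2) := Nat.pow_le_pow_right (by norm_num) (by omega)
    omega
  have hq : 0 < p ^ 1 := Nat.pow_pos hp.pos
  have : NeZero (p ^ 1) := ⟨hq.ne'⟩
  have hF : Fact p.Prime := ⟨hp⟩
  refine ⟨{x : ι → ZMod (p ^ 1) | x ∈ V ι (p ^ 1) ∧
    ∑ k, ((lam k : ℤ) : ZMod (p ^ 1)) * x k = 0 ∧ ∑ k, ((mu k : ℤ) : ZMod (p ^ 1)) * x k ≠ 0},
    fun x hx => hx.1, ?_, ?_⟩
  · have h1 := lin_count hp hp3 le_rfl (fun k => ((lam k : ℤ) : ZMod (p ^ 1)))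
      l l' hne (unit_of_large hp hl (by omega) 1) (unit_of_large hp hl' (by omega) 1)
      {0} 0 (by
        intro z hz
        rw [Set.mem_singleton_iff] at hz
        rw [hz, map_zero])
    rw [Set.ncard_singleton, one_mul] at h1
    have h2 := pairHom_count (pairHom_surj (lam := lam) (mu := mu)
      (unit_of_large hp hij hD2 1)) {((0 : ZMod (p ^ 1)), (0 : ZMod (p ^ 1)))}
    rw [Set.ncard_singleton, one_mul] at h2
    set n₁ : ℕ := {x : ι → ZMod (p ^ 1) | x ∈ V ι (p ^ 1) ∧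
      ∑ k, ((lam k : ℤ) : ZMod (p ^ 1)) * x k ∈ ({0} : Set (ZMod (p ^ 1)))}.ncard with hn₁
    set n₂ : ℕ := ((pairHom (p ^ 1) lam mu) ⁻¹'
      {((0 : ZMod (p ^ 1)), (0 : ZMod (p ^ 1)))}).ncard with hn₂
    set n : ℕ := {x : ι → ZMod (p ^ 1) | x ∈ V ι (p ^ 1) ∧
      ∑ k, ((lam k : ℤ) : ZMod (p ^ 1)) * x k = 0 ∧
        ∑ k, ((mu k : ℤ) : ZMod (p ^ 1)) * x k ≠ 0}.ncard with hn
    have h3 : n₁ ≤ n + n₂ := by
      refine (Set.ncard_le_ncard ?_ (Set.toFinite _)).trans (Set.ncard_union_le _ _)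
      rintro x ⟨hx1, hx2⟩
      rw [Set.mem_singleton_iff] at hx2
      by_cases hx3 : ∑ k, ((mu k : ℤ) : ZMod (p ^ 1)) * x k = 0
      · right
        exact Prod.ext hx2 hx3
      · left
        exact ⟨hx1, hx2, hx3⟩
    have hφ : (p ^ 1).totient = p - 1 := by rw [pow_one, Nat.totient_prime hp]
    set X : ℝ := ((p ^ 1).totient : ℝ) ^ Fintype.card ι with hX
    have hX0 : 0 ≤ X := by positivity
    have hp0 : (0 : ℝ) < p := by exact_mod_cast hp.pos
    have hφp : ((p ^ 1).totient : ℝ) ≤ p := by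
      rw [hφ]
      exact_mod_cast Nat.sub_le p 1
    have hφp2 : (p : ℝ) ≤ 2 * ((p ^ 1).totient : ℝ) := by
      rw [hφ]
      have : p ≤ 2 * (p - 1) := by omega
      exact_mod_cast this
    have h4 : X ≤ 2 * (p * (n₁ : ℝ)) := by
      have h5 : X ≤ 2 * (((p ^ 1).totient : ℝ) * (n₁ : ℝ)) := by
        rw [hX]
        exact_mod_cast h1
      have h6 : ((p ^ 1).totient : ℝ) * (n₁ : ℝ) ≤ p * (n₁ : ℝ) :=
        mul_le_mul_of_nonneg_right hφp (Nat.cast_nonneg _)
      linarith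
    have h5 : (n₂ : ℝ) * (p : ℝ) ^ 2 ≤ 2 ^ Fintype.card ι * X := by
      have h6 : (n₂ : ℝ) * (p : ℝ) ^ 2 = (p : ℝ) ^ Fintype.card ι := by
        rw [pow_one] at h2
        exact_mod_cast h2
      rw [h6, hX, ← mul_pow]
      exact pow_le_pow_left₀ hp0.le hφp2 _
    have h6 : (2 : ℝ) ^ Fintype.card ι * 4 ≤ p := by
      have h7 : 2 ^ Fintype.card ι * 4 ≤ p := by
        have : 2 ^ (Fintype.card ι + 2) = 2 ^ Fintype.card ι * 4 := by rw [pow_add]; norm_num
        omega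
      exact_mod_cast h7
    have h7 : (n₁ : ℝ) ≤ n + n₂ := by exact_mod_cast h3
    have h8 : (n₂ : ℝ) * (4 * p) ≤ X := by
      have h9 : (n₂ : ℝ) * (4 * p) * p ≤ X * p := by
        calc (n₂ : ℝ) * (4 * p) * p = 4 * ((n₂ : ℝ) * (p : ℝ) ^ 2) := by ring
          _ ≤ 4 * (2 ^ Fintype.card ι * X) := by linarith
          _ = (2 ^ Fintype.card ι * 4) * X := by ring
          _ ≤ p * X := mul_le_mul_of_nonneg_right h6 hX0
          _ = X * p := by ring
      exact le_of_mul_le_mul_right h9 hp0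
    rw [div_mul_eq_mul_div, one_mul, div_le_iff₀ (by positivity)]
    have h9 : (n₁ : ℝ) * (4 * p) ≤ (n + n₂) * (4 * p) :=
      mul_le_mul_of_nonneg_right h7 (by positivity)
    nlinarith
  · rintro c hc ⟨-, hm1, hm2⟩
    apply hc
    have hpp : ((p ^ 1 : ℕ) : ℤ) = p := by rw [pow_one]
    refine ⟨p, hp, hD1, ?_, fun h3 => hm2 ?_⟩
    · rw [← hpp, ← ZMod.intCast_zmod_eq_zero_iff_dvd]
      push_cast
      exact hm1
    · rw [← hpp] at h3
      have h4 := (ZMod.intCast_zmod_eq_zero_iff_dvd _ (p ^ 1)).2 h3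
      push_cast at h4
      exact h4

/-- the families which almost avoid all these sets -/
theorem robust_bad2 [DecidableEq ι] [Nonempty ι] :
    SpreadRobust (ι := ι) (fun _ S c => ∀ lam mu : ι → ℤ, Indep lam mu → ∀ D : ℕ,
      Rare S c (Bad2 lam mu D)) ∧
    UnitRobust (ι := ι) (fun _ S c => ∀ lam mu : ι → ℤ, TwoNonzero lam ∧ Indep lam mu → ∀ D : ℕ,
      Rare S c (Bad2 lam mu D)) := by
  constructor
  · refine spreadRobust_of (I := {q : (ι → ℤ) × (ι → ℤ) // Indep q.1 q.2} × ℕ)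
      (fun i => Bad2 i.1.1.1 i.1.1.2 i.2) (fun i => proNull_bad2 i.1.2 i.2) _ ?_
    intro Ω S c h lam mu hlm D
    exact h (⟨(lam, mu), hlm⟩, D)
  · refine unitRobust_of (I := {q : (ι → ℤ) × (ι → ℤ) // TwoNonzero q.1 ∧ Indep q.1 q.2} × ℕ)
      (fun i => Bad2 i.1.1.1 i.1.1.2 i.2) (fun i => unitNull_bad2 i.1.2.1 i.1.2.2 i.2) _ ?_
    intro Ω S c h lam mu hlm D
    exact h (⟨(lam, mu), hlm⟩, D)

end

end Pool.Agent.Run7.h316.UN
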